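import Mathlib
import Pool.Agent.H434R3.Arens

set_option autoImplicit false

/-!
# The Fourier algebra of a locally compact group: definitions
-/

namespace Pool.Agent.U609.FA

open MeasureTheory MeasureTheory.Measure
open scoped ENNReal ComplexConjugate

variable {G : Type*} [Group G] [TopologicalSpace G] [IsTopologicalGroup G] [LocallyCompactSpace G]
  [MeasurableSpace G] [BorelSpace G]

/-- The coefficient function `s ↦ ⟨λ(s) ξ, η⟩ = ∫ ξ(s⁻¹ t) conj (η(t)) dm(t)` of the left regular
representation on `L²(G)`, `m` the left Haar measure. -/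
noncomputable def coeff (ξ η : Lp ℂ 2 (haar : Measure G)) (s : G) : ℂ :=
  ∫ t, ξ (s⁻¹ * t) * conj (η t) ∂(haar : Measure G)

/-- `A` is the Fourier algebra `A(G)`: its elements are (represented by) the coefficient functions
`⟨λ(·) ξ, η⟩`, `ξ, η ∈ L²(G)`, the algebra operations are pointwise, and the norm is the infimum of
`‖ξ‖ ‖η‖` over all such representations. -/
structure FourierAlg (G : Type*) [Group G] [TopologicalSpace G] [IsTopologicalGroup G]
    [LocallyCompactSpace G] [MeasurableSpace G] [BorelSpace G]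
    (A : Type*) [NonUnitalNormedRing A] [NormedSpace ℂ A] where
  /-- the function on `G` represented by an element of `A` -/
  fn : A → G → ℂ
  inj : Function.Injective fn
  add : ∀ a b : A, ∀ s, fn (a + b) s = fn a s + fn b s
  smul : ∀ (c : ℂ) (a : A), ∀ s, fn (c • a) s = c * fn a s
  mul : ∀ a b : A, ∀ s, fn (a * b) s = fn a s * fn b s
  mem : ∀ ξ η : Lp ℂ 2 (haar : Measure G), ∃ a : A, ∀ s, fn a s = coeff ξ η s
  rep : ∀ a : A, ∃ ξ η : Lp ℂ 2 (haar : Measure G), ∀ s, fn a s = coeff ξ η s
  norm : ∀ a : A, IsGLB {r : ℝ | ∃ ξ η : Lp ℂ 2 (haar : Measure G),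
    (∀ s, fn a s = coeff ξ η s) ∧ r = ‖ξ‖ * ‖η‖} ‖a‖

end Pool.Agent.U609.FA
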