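import Mathlib
import Pool.Agent.U609.FA.Defs

set_option autoImplicit false

/-!
# Left translations on `L²(G)` and functionals on the Fourier algebra
-/

namespace Pool.Agent.U609.FA

open MeasureTheory MeasureTheory.Measure Filter
open scoped ENNReal ComplexConjugate Topology InnerProductSpace

section

variable (G : Type*) [Group G] [TopologicalSpace G] [IsTopologicalGroup G] [LocallyCompactSpace G]
  [MeasurableSpace G] [BorelSpace G]

/-- `L²(G)` -/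
abbrev HH : Type _ := Lp ℂ 2 (haar : Measure G)

end

variable {G : Type*} [Group G] [TopologicalSpace G] [IsTopologicalGroup G] [LocallyCompactSpace G]
  [MeasurableSpace G] [BorelSpace G]

/-- the left regular representation -/
noncomputable def lam (s : G) : HH G →L[ℂ] HH G :=
  LinearMap.mkContinuous
    { toFun := fun ξ => DomMulAct.mk s⁻¹ • ξ
      map_add' := fun ξ η => smul_add _ _ _
      map_smul' := fun c ξ => smul_comm _ _ _ } 1 (fun ξ => by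
        simp only [LinearMap.coe_mk, AddHom.coe_mk, one_mul]
        exact (DomMulAct.norm_smul_Lp _ _).le)

lemma lam_def (s : G) (ξ : HH G) : lam s ξ = DomMulAct.mk s⁻¹ • ξ := rfl

lemma norm_lam (s : G) (ξ : HH G) : ‖lam s ξ‖ = ‖ξ‖ := DomMulAct.norm_smul_Lp _ _

lemma lam_ae (s : G) (ξ : HH G) : lam s ξ =ᵐ[haar] fun t => ξ (s⁻¹ * t) :=
  DomMulAct.smul_Lp_ae_eq _ _

lemma lam_mul (s t : G) (ξ : HH G) : lam (s * t) ξ = lam s (lam t ξ) := by
  rw [lam_def, lam_def, lam_def, smul_smul, ← DomMulAct.mk_mul, mul_inv_rev]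

lemma lam_one (ξ : HH G) : lam (1 : G) ξ = ξ := by
  rw [lam_def, inv_one, DomMulAct.mk_one, one_smul]

lemma norm_lam_le (s : G) : ‖(lam s : HH G →L[ℂ] HH G)‖ ≤ 1 :=
  ContinuousLinearMap.opNorm_le_bound _ zero_le_one fun ξ => by rw [norm_lam, one_mul]

lemma continuous_lam (ξ : HH G) : Continuous fun s : G => lam s ξ := by
  have h : Continuous fun s : G => (DomMulAct.mk s⁻¹ : Gᵈᵐᵃ) • ξ := by
    have h1 : Continuous fun s : G => (DomMulAct.mk s⁻¹ : Gᵈᵐᵃ) :=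
      DomMulAct.continuous_mk.comp continuous_inv
    haveI : Fact ((2 : ℝ≥0∞) ≠ ∞) := ⟨by simp⟩
    exact h1.smul continuous_const
  exact h

lemma coeff_eq (ξ η : HH G) (s : G) : coeff ξ η s = ⟪η, lam s ξ⟫_ℂ := by
  rw [L2.inner_def, coeff]
  refine integral_congr_ae ?_
  filter_upwards [lam_ae s ξ] with t ht
  rw [ht, RCLike.inner_apply]

lemma inner_lam (s : G) (ξ η : HH G) : ⟪η, lam s ξ⟫_ℂ = ⟪lam s⁻¹ η, ξ⟫_ℂ := by
  have h : ∀ ζ : HH G, ⟪lam s ζ, lam s ζ⟫_ℂ = ⟪ζ, ζ⟫_ℂ := fun ζ => by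
    rw [inner_self_eq_norm_sq_to_K, inner_self_eq_norm_sq_to_K, norm_lam]
  have key : ∀ ζ ζ' : HH G, ⟪lam s ζ, lam s ζ'⟫_ℂ = ⟪ζ, ζ'⟫_ℂ := by
    intro ζ ζ'
    exact (LinearMap.norm_map_iff_inner_map_map (lam s).toLinearMap).1 (norm_lam s) ζ ζ'
  have e : lam s (lam s⁻¹ η) = η := by rw [← lam_mul, mul_inv_cancel, lam_one]
  conv_lhs => rw [← e]
  exact key _ _

variable {A : Type*} [NonUnitalNormedRing A] [NormedSpace ℂ A]

namespace FourierAlg

variable (F : FourierAlg G A)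

lemma norm_le {a : A} {ξ η : HH G} (h : ∀ s, F.fn a s = coeff ξ η s) : ‖a‖ ≤ ‖ξ‖ * ‖η‖ :=
  (F.norm a).1 ⟨ξ, η, h, rfl⟩

/-- `τ` is the functional `⟨· , S⟩` given by the operator `S` -/
def Rep (S : HH G →L[ℂ] HH G) (τ : A → ℂ) : Prop :=
  ∀ (a : A) (ξ η : HH G), (∀ s, F.fn a s = coeff ξ η s) → τ a = ⟪η, S ξ⟫_ℂ

variable {F}

lemma Rep.bound {S : HH G →L[ℂ] HH G} {τ : A → ℂ} (h : F.Rep S τ) (a : A) :
    ‖τ a‖ ≤ ‖S‖ * ‖a‖ := by
  by_contra hc
  push Not at hc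
  rcases (norm_nonneg S).eq_or_lt with h0 | h0
  · obtain ⟨ξ, η, hr⟩ := F.rep a
    rw [← h0, zero_mul] at hc
    have h1 := h a ξ η hr
    have h2 : S = 0 := norm_eq_zero.1 h0.symm
    rw [h1, h2] at hc
    simp at hc
  · have h1 : ‖a‖ < ‖τ a‖ / ‖S‖ := by
      rw [lt_div_iff₀ h0, mul_comm]; exact hc
    have h2 : ¬ (‖τ a‖ / ‖S‖ ∈ lowerBounds {r : ℝ | ∃ ξ η : HH G,
        (∀ s, F.fn a s = coeff ξ η s) ∧ r = ‖ξ‖ * ‖η‖}) := fun h3 =>
      absurd ((F.norm a).2 h3) (not_le.2 h1)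
    apply h2
    rintro r ⟨ξ, η, hr, rfl⟩
    rw [div_le_iff₀ h0, h a ξ η hr]
    calc ‖⟪η, S ξ⟫_ℂ‖ ≤ ‖η‖ * ‖S ξ‖ := norm_inner_le_norm _ _
      _ ≤ ‖η‖ * (‖S‖ * ‖ξ‖) := mul_le_mul_of_nonneg_left (S.le_opNorm ξ) (norm_nonneg _)
      _ = ‖ξ‖ * ‖η‖ * ‖S‖ := by ring

lemma Rep.norm_le {S : HH G →L[ℂ] HH G} {τ : A →L[ℂ] ℂ} (h : F.Rep S τ) : ‖τ‖ ≤ ‖S‖ :=
  τ.opNorm_le_bound (norm_nonneg _) h.bound

lemma Rep.add {S S' : HH G →L[ℂ] HH G} {τ τ' : A →L[ℂ] ℂ} (h : F.Rep S τ) (h' : F.Rep S' τ') :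
    F.Rep (S + S') (τ + τ' : A →L[ℂ] ℂ) := fun a ξ η hr => by
  rw [_root_.add_apply, _root_.add_apply, inner_add_right, h a ξ η hr,
    h' a ξ η hr]

lemma Rep.sub {S S' : HH G →L[ℂ] HH G} {τ τ' : A →L[ℂ] ℂ} (h : F.Rep S τ) (h' : F.Rep S' τ') :
    F.Rep (S - S') (τ - τ' : A →L[ℂ] ℂ) := fun a ξ η hr => by
  rw [_root_.sub_apply, _root_.sub_apply, inner_sub_right, h a ξ η hr,
    h' a ξ η hr]

lemma Rep.smul {S : HH G →L[ℂ] HH G} {τ : A →L[ℂ] ℂ} (h : F.Rep S τ) (c : ℂ) :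
    F.Rep (c • S) (c • τ : A →L[ℂ] ℂ) := fun a ξ η hr => by
  rw [_root_.smul_apply, _root_.smul_apply, inner_smul_right, h a ξ η hr,
    smul_eq_mul]

variable (F) in
lemma rep_zero : F.Rep 0 (0 : A →L[ℂ] ℂ) := fun a ξ η hr => by simp

variable (F) in
/-- evaluation at a point -/
noncomputable def ev (s : G) : A →L[ℂ] ℂ :=
  LinearMap.mkContinuous
    { toFun := fun a => F.fn a s
      map_add' := fun a b => F.add a b s
      map_smul' := fun c a => F.smul c a s } 1 (fun a => by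
        have h : F.Rep (lam s) (fun a => F.fn a s) := fun a ξ η hr => by
          show F.fn a s = _
          rw [hr s, coeff_eq]
        exact (h.bound a).trans (mul_le_mul_of_nonneg_right (norm_lam_le s) (norm_nonneg _)))

variable (F) in
lemma ev_apply (s : G) (a : A) : F.ev s a = F.fn a s := rfl

variable (F) in
lemma rep_lam (s : G) : F.Rep (lam s) (F.ev s) := fun a ξ η hr => by
  rw [F.ev_apply, hr s, coeff_eq]

variable (F) in
lemma norm_fn_le (a : A) (s : G) : ‖F.fn a s‖ ≤ ‖a‖ := by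
  have := (F.rep_lam s).bound a
  rw [F.ev_apply] at this
  exact this.trans ((mul_le_mul_of_nonneg_right (norm_lam_le s) (norm_nonneg _)).trans
    (one_mul _).le)

variable (F) in
lemma continuous_fn (a : A) : Continuous (F.fn a) := by
  obtain ⟨ξ, η, hr⟩ := F.rep a
  have : F.fn a = fun s => ⟪η, lam s ξ⟫_ℂ := by
    funext s; rw [hr s, coeff_eq]
  rw [this]
  exact continuous_const.inner (continuous_lam ξ)

lemma mul_comm' (F : FourierAlg G A) (a b : A) : a * b = b * a := by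
  apply F.inj
  funext s
  rw [F.mul, F.mul, mul_comm]

variable (F) in
lemma fn_zero (s : G) : F.fn 0 s = 0 := by
  have := F.smul 0 0 s
  simpa using this

variable (F) in
lemma fn_sub (a b : A) (s : G) : F.fn (a - b) s = F.fn a s - F.fn b s := by
  have := F.add (a - b) b s
  rw [sub_add_cancel] at this
  rw [this]; ring

end FourierAlg

end Pool.Agent.U609.FA
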