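import Mathlib
import Pool.Agent.U609.FA.Oper

set_option autoImplicit false

/-!
# `L²(G)` for a discrete group `G`
-/

namespace Pool.Agent.U609.FA

open MeasureTheory MeasureTheory.Measure Filter
open scoped ENNReal ComplexConjugate Topology InnerProductSpace

variable {G : Type*} [Group G] [TopologicalSpace G] [IsTopologicalGroup G] [LocallyCompactSpace G]
  [MeasurableSpace G] [BorelSpace G] [DiscreteTopology G]

lemma haar_pt_pos (x : G) : 0 < (haar : Measure G) {x} :=
  (isOpen_discrete {x}).measure_pos _ ⟨x, rfl⟩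

lemma haar_pt_lt (x : G) : (haar : Measure G) {x} < ∞ := isCompact_singleton.measure_lt_top

lemma haar_pt (x : G) : (haar : Measure G) {x} = (haar : Measure G) {1} := haar_singleton _ x

variable (G) in
/-- the mass of the points -/
noncomputable def cc : ℝ := (haar : Measure G).real {1}

variable (G) in
lemma cc_pos : 0 < cc G := by
  rw [cc, measureReal_def, ENNReal.toReal_pos_iff]
  exact ⟨haar_pt_pos 1, haar_pt_lt 1⟩

lemma all_of_ae {P : G → Prop} (h : ∀ᵐ x ∂(haar : Measure G), P x) (x : G) : P x := by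
  by_contra hx
  have h1 : (haar : Measure G) {x} ≤ 0 := by
    rw [← h]
    exact measure_mono fun y hy => by rw [Set.mem_singleton_iff.1 hy]; exact hx
  exact absurd h1 (not_le.2 (haar_pt_pos x))

lemma finite_of_lt_top {S : Set G} (h : (haar : Measure G) S < ∞) : S.Finite := by
  by_contra hS
  exact absurd (Set.Infinite.meas_eq_top hS ⟨(haar : Measure G) {1}, (haar_pt_pos 1).ne',
    fun x _ => (haar_pt x).ge⟩) h.ne

lemma lam_apply (s : G) (ξ : HH G) (x : G) : lam s ξ x = ξ (s⁻¹ * x) :=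
  all_of_ae (lam_ae s ξ) x

lemma add_apply' (ξ η : HH G) (x : G) : (ξ + η : HH G) x = ξ x + η x :=
  all_of_ae (Lp.coeFn_add ξ η) x

lemma sub_apply' (ξ η : HH G) (x : G) : (ξ - η : HH G) x = ξ x - η x :=
  all_of_ae (Lp.coeFn_sub ξ η) x

lemma smul_apply' (c : ℂ) (ξ : HH G) (x : G) : (c • ξ : HH G) x = c * ξ x :=
  all_of_ae (Lp.coeFn_smul c ξ) x

lemma zero_apply' (x : G) : (0 : HH G) x = 0 :=
  all_of_ae (Lp.coeFn_zero ℂ 2 (haar : Measure G)) x

lemma ext' {ξ η : HH G} (h : ∀ x, ξ x = η x) : ξ = η :=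
  Lp.ext (Eventually.of_forall h)

/-- the indicator function of `{x}` -/
noncomputable def ee (x : G) : HH G :=
  indicatorConstLp 2 (measurableSet_singleton x) (haar_pt_lt x).ne (1 : ℂ)

open scoped Classical in
lemma ee_apply (x y : G) : ee x y = if y = x then 1 else 0 := by
  have := all_of_ae (indicatorConstLp_coeFn (p := 2) (hs := measurableSet_singleton x)
    (hμs := (haar_pt_lt x).ne) (c := (1 : ℂ)) (μ := (haar : Measure G))) y
  rw [ee, this, Set.indicator_apply]
  simp

lemma inner_ee (x : G) (ξ : HH G) : ⟪ee x, ξ⟫_ℂ = cc G * ξ x := by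
  rw [ee, L2.inner_indicatorConstLp_one, Measure.restrict_singleton, integral_smul_measure,
    integral_dirac, haar_pt, cc, measureReal_def, Complex.real_smul]

variable (G) in
lemma cc_ne : (cc G : ℂ) ≠ 0 := by exact_mod_cast (cc_pos G).ne'

/-- evaluation at a point as a bounded functional -/
noncomputable def pt (x : G) : HH G →L[ℂ] ℂ := (cc G : ℂ)⁻¹ • innerSL ℂ (ee x)

lemma pt_apply (x : G) (ξ : HH G) : pt x ξ = ξ x := by
  rw [pt, _root_.smul_apply, innerSL_apply_apply, inner_ee, smul_eq_mul,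
    inv_mul_cancel_left₀ (cc_ne G)]

lemma level_finite (ξ : HH G) {ε : ℝ} (hε : 0 < ε) : {x | ε ≤ ‖ξ x‖}.Finite := by
  apply finite_of_lt_top
  have h := (Lp.memLp ξ).meas_ge_lt_top (μ := (haar : Measure G)) (p := 2) (by norm_num)
    (by norm_num) (ε := ⟨ε, hε.le⟩) (by
      intro h; exact hε.ne' (congrArg Subtype.val h))
  refine lt_of_le_of_lt (measure_mono fun x hx => ?_) h
  exact hx

/-! ### right translations -/

lemma mp_right (t : G) : MeasurePreserving (fun x : G => x * t) (haar : Measure G) haar := by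
  refine ⟨measurable_mul_const t, ?_⟩
  ext E hE
  rw [Measure.map_apply (measurable_mul_const t) hE]
  by_cases hf : E.Finite
  · have key : ∀ E' : Set G, E'.Finite → (haar : Measure G) E' = E'.encard.toENNReal * haar {(1:G)} := by
      intro E' hE'
      obtain ⟨s, rfl⟩ := hE'.exists_finset_coe
      rw [← sum_measure_singleton]
      simp only [haar_pt]
      simp
    have hf' : ((fun x : G => x * t) ⁻¹' E).Finite := hf.preimage (mul_left_injective t).injOn
    rw [key _ hf, key _ hf']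
    congr 2
    exact Set.encard_preimage_of_bijective (Group.mulRight_bijective t) E
  · have hf' : ¬ ((fun x : G => x * t) ⁻¹' E).Finite := by
      intro h
      apply hf
      have := h.image (fun x : G => x * t)
      rwa [Set.image_preimage_eq _ (Group.mulRight_bijective t).surjective] at this
    rw [Set.Infinite.meas_eq_top hf ⟨(haar : Measure G) {1}, (haar_pt_pos 1).ne',
      fun x _ => (haar_pt x).ge⟩, Set.Infinite.meas_eq_top hf' ⟨(haar : Measure G) {1},
      (haar_pt_pos 1).ne', fun x _ => (haar_pt x).ge⟩]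

/-- right translation -/
noncomputable def rt (t : G) : HH G →ₗᵢ[ℂ] HH G :=
  Lp.compMeasurePreservingₗᵢ ℂ (fun x : G => x * t) (mp_right t)

lemma rt_apply (t : G) (ξ : HH G) (x : G) : rt t ξ x = ξ (x * t) :=
  all_of_ae (Lp.coeFn_compMeasurePreserving ξ (mp_right t)) x

lemma lam_rt (s t : G) (ξ : HH G) : lam s (rt t ξ) = rt t (lam s ξ) := by
  apply ext'
  intro x
  rw [lam_apply, rt_apply, rt_apply, lam_apply, mul_assoc]

/-! ### the absolute value -/

/-- the absolute value of an element of `L²(G)` -/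
noncomputable def ab (ξ : HH G) : HH G :=
  ((Lp.memLp ξ).norm.ofReal (K := ℂ)).toLp (fun x => ((‖ξ x‖ : ℝ) : ℂ))

lemma ab_apply (ξ : HH G) (x : G) : ab ξ x = ((‖ξ x‖ : ℝ) : ℂ) :=
  all_of_ae (MemLp.coeFn_toLp _) x

lemma norm_ab (ξ : HH G) : ‖ab ξ‖ = ‖ξ‖ := by
  refine le_antisymm (Lp.norm_le_norm_of_ae_le (Eventually.of_forall fun x => ?_))
    (Lp.norm_le_norm_of_ae_le (Eventually.of_forall fun x => ?_))
  · rw [ab_apply]; simp
  · rw [ab_apply]; simp

lemma inner_lam_ab (s : G) (ξ : HH G) : ‖⟪ξ, lam s ξ⟫_ℂ‖ ≤ (⟪ab ξ, lam s (ab ξ)⟫_ℂ).re := by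
  have h1 : ⟪ab ξ, lam s (ab ξ)⟫_ℂ = ((∫ x, ‖lam s ξ x * conj (ξ x)‖ ∂(haar : Measure G) : ℝ) : ℂ) := by
    rw [L2.inner_def]
    refine Eq.trans ?_ (integral_ofReal (𝕜 := ℂ)
      (f := fun x => ‖lam s ξ x * conj (ξ x)‖) (μ := (haar : Measure G)))
    refine integral_congr_ae (Eventually.of_forall fun x => ?_)
    show ⟪ab ξ x, lam s (ab ξ) x⟫_ℂ = ((‖lam s ξ x * conj (ξ x)‖ : ℝ) : ℂ)
    rw [RCLike.inner_apply, lam_apply, ab_apply, ab_apply, lam_apply]
    simp
  rw [h1, Complex.ofReal_re, L2.inner_def]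
  refine (norm_integral_le_integral_norm _).trans (le_of_eq ?_)
  refine integral_congr_ae (Eventually.of_forall fun x => ?_)
  show ‖⟪ξ x, lam s ξ x⟫_ℂ‖ = _
  rw [RCLike.inner_apply]

end Pool.Agent.U609.FA
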