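import Mathlib
import Pool.Agent.U609.FA.Disc1

set_option autoImplicit false

/-!
# A symmetric contraction in `C*_r(G)` without eigenvalues `±1`, for infinite discrete `G`
-/

namespace Pool.Agent.U609.FA

open MeasureTheory MeasureTheory.Measure Filter
open scoped ENNReal ComplexConjugate Topology InnerProductSpace

variable {G : Type*} [Group G] [TopologicalSpace G] [IsTopologicalGroup G] [LocallyCompactSpace G]
  [MeasurableSpace G] [BorelSpace G]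

/-- the weights -/
noncomputable def aw (n : ℕ) : ℂ := ((((1 : ℝ) / 2) ^ (n + 1) : ℝ) : ℂ)

/-- `λ(k) + λ(k⁻¹)` -/
noncomputable def sy (k : G) : HH G →L[ℂ] HH G := lam k + lam k⁻¹

lemma norm_sy_le (k : G) : ‖(sy k : HH G →L[ℂ] HH G)‖ ≤ 2 :=
  (norm_add_le _ _).trans (by linarith [norm_lam_le k, norm_lam_le k⁻¹])

/-- the terms of the series -/
noncomputable def tm (k : ℕ → G) (n : ℕ) : HH G →L[ℂ] HH G := aw n • sy (k n)

lemma summable_tm (k : ℕ → G) : Summable (tm k) := by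
  refine Summable.of_norm_bounded (g := fun n => ((1 : ℝ) / 2) ^ (n + 1) * 2) ?_ fun n => ?_
  · exact ((summable_nat_add_iff 1).2 (summable_geometric_of_lt_one (by norm_num)
      (by norm_num))).mul_right 2
  · rw [tm, norm_smul, aw, Complex.norm_real, Real.norm_of_nonneg (by positivity)]
    exact mul_le_mul_of_nonneg_left (norm_sy_le _) (by positivity)

/-- `M = ∑ 2^{-n-1} (λ(k n) + λ(k n)⁻¹)` -/
noncomputable def MM (k : ℕ → G) : HH G →L[ℂ] HH G := ∑' n, tm k n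

lemma hasSum_MM (k : ℕ → G) (ξ : HH G) : HasSum (fun n => tm k n ξ) (MM k ξ) := by
  have h := (summable_tm k).hasSum
  exact h.mapL (ContinuousLinearMap.apply ℂ (HH G) ξ)

lemma tm_symm (k : ℕ → G) (n : ℕ) (ξ ζ : HH G) : ⟪ζ, tm k n ξ⟫_ℂ = ⟪tm k n ζ, ξ⟫_ℂ := by
  rw [tm, _root_.smul_apply, _root_.smul_apply, inner_smul_right, inner_smul_left, aw,
    Complex.conj_ofReal, sy, _root_.add_apply, _root_.add_apply, inner_add_right, inner_add_left,
    inner_lam, inner_lam (k n)⁻¹, inv_inv, add_comm (⟪lam (k n)⁻¹ ζ, ξ⟫_ℂ)]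

lemma MM_symm (k : ℕ → G) (ξ ζ : HH G) : ⟪ζ, MM k ξ⟫_ℂ = ⟪MM k ζ, ξ⟫_ℂ := by
  have h1 : HasSum (fun n => ⟪ζ, tm k n ξ⟫_ℂ) ⟪ζ, MM k ξ⟫_ℂ :=
    (hasSum_MM k ξ).mapL (innerSL ℂ ζ)
  have h2 : HasSum (fun n => ⟪ξ, tm k n ζ⟫_ℂ) ⟪ξ, MM k ζ⟫_ℂ :=
    (hasSum_MM k ζ).mapL (innerSL ℂ ξ)
  have h3 : HasSum (fun n => ⟪tm k n ζ, ξ⟫_ℂ) ⟪MM k ζ, ξ⟫_ℂ := by
    have := h2.star
    have e : ∀ v : HH G, star ⟪ξ, v⟫_ℂ = ⟪v, ξ⟫_ℂ := fun v => inner_conj_symm _ _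
    simp only [Function.comp_def, e] at this
    exact this
  have e : (fun n => ⟪ζ, tm k n ξ⟫_ℂ) = fun n => ⟪tm k n ζ, ξ⟫_ℂ := by
    funext n; exact tm_symm k n ξ ζ
  rw [e] at h1
  exact h1.unique h3

variable [DiscreteTopology G]

lemma MM_apply (k : ℕ → G) (ξ : HH G) (x : G) :
    HasSum (fun n => aw n * (ξ ((k n)⁻¹ * x) + ξ (k n * x))) (MM k ξ x) := by
  have h := (hasSum_MM k ξ).mapL (pt x)
  rw [pt_apply] at h
  convert h using 2 with n
  rw [pt_apply, tm, _root_.smul_apply, smul_apply', sy, _root_.add_apply, add_apply', lam_apply,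
    lam_apply, inv_inv]

lemma MM_rt (k : ℕ → G) (t : G) (ξ : HH G) : MM k (rt t ξ) = rt t (MM k ξ) := by
  apply ext'
  intro x
  rw [rt_apply]
  have h1 := MM_apply k (rt t ξ) x
  have h2 := MM_apply k ξ (x * t)
  simp only [rt_apply, mul_assoc] at h1 h2
  exact h1.unique h2

lemma MM_ab (k : ℕ → G) (ξ : HH G) : ‖⟪ξ, MM k ξ⟫_ℂ‖ ≤ (⟪ab ξ, MM k (ab ξ)⟫_ℂ).re := by
  have h1 : HasSum (fun n => ⟪ξ, tm k n ξ⟫_ℂ) ⟪ξ, MM k ξ⟫_ℂ :=
    (hasSum_MM k ξ).mapL (innerSL ℂ ξ)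
  have h2 : HasSum (fun n => ⟪ab ξ, tm k n (ab ξ)⟫_ℂ) ⟪ab ξ, MM k (ab ξ)⟫_ℂ :=
    (hasSum_MM k (ab ξ)).mapL (innerSL ℂ (ab ξ))
  have h3 : HasSum (fun n => (⟪ab ξ, tm k n (ab ξ)⟫_ℂ).re) (⟪ab ξ, MM k (ab ξ)⟫_ℂ).re :=
    Complex.hasSum_re h2
  have hle : ∀ n, ‖⟪ξ, tm k n ξ⟫_ℂ‖ ≤ (⟪ab ξ, tm k n (ab ξ)⟫_ℂ).re := by
    intro n
    rw [tm, _root_.smul_apply, _root_.smul_apply, inner_smul_right, inner_smul_right, norm_mul, aw,
      Complex.norm_real, Real.norm_of_nonneg (by positivity), Complex.re_ofReal_mul]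
    refine mul_le_mul_of_nonneg_left ?_ (by positivity)
    rw [sy, _root_.add_apply, _root_.add_apply, inner_add_right, inner_add_right, Complex.add_re]
    exact (norm_add_le _ _).trans (add_le_add (inner_lam_ab _ _) (inner_lam_ab _ _))
  rw [← h1.tsum_eq, ← h3.tsum_eq]
  exact tsum_of_norm_bounded h3 hle |>.trans (le_of_eq h3.tsum_eq.symm)

/-- eigenvectors of `M` for the eigenvalue `‖M‖` -/
lemma ab_eigen (k : ℕ → G) {ξ : HH G} (h : ‖MM k‖ * ‖ξ‖ ^ 2 ≤ ‖⟪ξ, MM k ξ⟫_ℂ‖) :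
    MM k (ab ξ) = ((‖MM k‖ : ℝ) : ℂ) • ab ξ := by
  set r := ‖MM k‖ with hr
  have hr0 : 0 ≤ r := norm_nonneg _
  have h1 : r * ‖ξ‖ ^ 2 ≤ (⟪ab ξ, MM k (ab ξ)⟫_ℂ).re := h.trans (MM_ab k ξ)
  have h2 : ‖MM k (ab ξ)‖ ≤ r * ‖ξ‖ := by
    have := (MM k).le_opNorm (ab ξ)
    rwa [norm_ab] at this
  have e1 : ‖MM k (ab ξ) - ((r : ℝ) : ℂ) • ab ξ‖ ^ 2 = ‖MM k (ab ξ)‖ ^ 2 -
      2 * (⟪MM k (ab ξ), ((r : ℝ) : ℂ) • ab ξ⟫_ℂ).re + ‖((r : ℝ) : ℂ) • ab ξ‖ ^ 2 :=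
    norm_sub_sq (𝕜 := ℂ) _ _
  have e2 : (⟪MM k (ab ξ), ((r : ℝ) : ℂ) • ab ξ⟫_ℂ).re = r * (⟪ab ξ, MM k (ab ξ)⟫_ℂ).re := by
    rw [inner_smul_right, Complex.re_ofReal_mul, ← MM_symm]
  have e3 : ‖((r : ℝ) : ℂ) • ab ξ‖ ^ 2 = r ^ 2 * ‖ξ‖ ^ 2 := by
    rw [norm_smul, Complex.norm_real, Real.norm_of_nonneg hr0, norm_ab, mul_pow]
  have h3 : ‖MM k (ab ξ)‖ ^ 2 ≤ r ^ 2 * ‖ξ‖ ^ 2 := by
    rw [← mul_pow]; exact pow_le_pow_left₀ (norm_nonneg _) h2 2
  have h4 : r * (r * ‖ξ‖ ^ 2) ≤ r * (⟪ab ξ, MM k (ab ξ)⟫_ℂ).re := mul_le_mul_of_nonneg_left h1 hr0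
  have h5 : ‖MM k (ab ξ) - ((r : ℝ) : ℂ) • ab ξ‖ ^ 2 ≤ 0 := by
    rw [e1, e2, e3]; nlinarith
  have h6 : ‖MM k (ab ξ) - ((r : ℝ) : ℂ) • ab ξ‖ = 0 := by
    have := sq_nonneg ‖MM k (ab ξ) - ((r : ℝ) : ℂ) • ab ξ‖
    exact pow_eq_zero_iff (two_ne_zero) |>.1 (le_antisymm h5 this)
  exact sub_eq_zero.1 (norm_eq_zero.1 h6)

lemma eigen_ab (k : ℕ → G) {ξ : HH G} {z : ℂ} (hz : ‖z‖ = ‖MM k‖) (h : MM k ξ = z • ξ) :
    MM k (ab ξ) = ((‖MM k‖ : ℝ) : ℂ) • ab ξ := by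
  apply ab_eigen
  rw [h, inner_smul_right, norm_mul, hz, inner_self_eq_norm_sq_to_K]
  simp

/-- a nonnegative eigenvector which vanishes at `x` vanishes at the points `k n * x` -/
lemma eigen_zero (k : ℕ → G) {w : HH G} {z : ℂ} (h : MM k w = z • w)
    (hw : ∀ x, ∃ c : ℝ, 0 ≤ c ∧ w x = (c : ℂ)) {x : G} (hx : w x = 0) (n : ℕ) :
    w (k n * x) = 0 := by
  have h1 := MM_apply k w x
  rw [h, smul_apply', hx, mul_zero] at h1
  choose c hc0 hc using hw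
  have h2 : HasSum (fun n => ((1 : ℝ) / 2) ^ (n + 1) * (c ((k n)⁻¹ * x) + c (k n * x))) 0 := by
    have := Complex.hasSum_re h1
    rw [Complex.zero_re] at this
    convert this using 2 with m
    rw [hc, hc, aw]
    norm_cast
  have h3 := (hasSum_zero_iff_of_nonneg (fun m => by
    have := hc0 ((k m)⁻¹ * x)
    have := hc0 (k m * x)
    positivity)).1 h2
  have h4 := congrFun h3 n
  simp only [Pi.zero_apply] at h4
  have h5 : c ((k n)⁻¹ * x) + c (k n * x) = 0 := by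
    rcases mul_eq_zero.1 h4 with h | h
    · exact absurd h (by positivity)
    · exact h
  rw [hc]
  have h6 := hc0 ((k n)⁻¹ * x)
  have h7 := hc0 (k n * x)
  have : c (k n * x) = 0 := by linarith
  rw [this]; simp

/-- there is no nonnegative eigenvector -/
lemma no_pos_eigen (k : ℕ → G) (hk : (Set.range k).Infinite) {w : HH G} (h : MM k w = ((‖MM k‖ : ℝ) : ℂ) • w)
    (hw : ∀ x, ∃ c : ℝ, 0 ≤ c ∧ w x = (c : ℂ)) : w = 0 := by
  by_contra hne
  choose c hc0 hc using hw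
  have hcn : ∀ x, ‖w x‖ = c x := fun x => by
    rw [hc, Complex.norm_real, Real.norm_of_nonneg (hc0 x)]
  obtain ⟨x1, hx1⟩ : ∃ x, w x ≠ 0 := by
    by_contra hall
    push Not at hall
    exact hne (ext' fun x => by rw [hall, zero_apply'])
  have hc1 : 0 < c x1 := by
    rw [← hcn]; exact norm_pos_iff.2 hx1
  have hfin : {x | c x1 ≤ c x}.Finite := by
    have := level_finite w hc1
    simpa only [hcn] using this
  obtain ⟨x0, hx0mem, hx0max⟩ := hfin.exists_maximalFor c _ ⟨x1, le_refl (c x1)⟩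
  have hmax : ∀ y, c y ≤ c x0 := by
    intro y
    by_cases hy : c x1 ≤ c y
    · by_contra hlt
      push Not at hlt
      exact absurd (hx0max hy hlt.le) (not_le.2 hlt)
    · push Not at hy
      exact hy.le.trans hx0mem
  have hc0' : 0 < c x0 := hc1.trans_le hx0mem
  -- all the points `k n * x0` have the maximal value
  have key : ∀ n, c (k n * x0) = c x0 := by
    intro n
    set g := k n with hg
    set t := x0⁻¹ * g * x0 with ht
    set u : HH G := w - rt t w with hu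
    have hut : MM k u = ((‖MM k‖ : ℝ) : ℂ) • u := by
      rw [hu, map_sub, MM_rt, h, map_smul, ← smul_sub]
    have hua : MM k (ab u) = ((‖MM k‖ : ℝ) : ℂ) • ab u :=
      eigen_ab k (by rw [Complex.norm_real, Real.norm_of_nonneg (norm_nonneg _)]) hut
    have hux : ∀ x, u x = ((c x - c (x * t) : ℝ) : ℂ) := fun x => by
      rw [hu, sub_apply', rt_apply, hc, hc]; push_cast; rfl
    have habx : ∀ x, ab u x = ((|c x - c (x * t)| : ℝ) : ℂ) := fun x => by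
      rw [ab_apply, hux, Complex.norm_real, Real.norm_eq_abs]
    set p : HH G := ab u - u with hp
    set q : HH G := ab u + u with hq
    have hpe : MM k p = ((‖MM k‖ : ℝ) : ℂ) • p := by rw [hp, map_sub, hua, hut, ← smul_sub]
    have hqe : MM k q = ((‖MM k‖ : ℝ) : ℂ) • q := by rw [hq, map_add, hua, hut, ← smul_add]
    have hpx : ∀ x, p x = ((|c x - c (x * t)| - (c x - c (x * t)) : ℝ) : ℂ) := fun x => by
      rw [hp, sub_apply', habx, hux]; push_cast; rfl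
    have hqx : ∀ x, q x = ((|c x - c (x * t)| + (c x - c (x * t)) : ℝ) : ℂ) := fun x => by
      rw [hq, add_apply', habx, hux]; push_cast; rfl
    have hq0 : ∀ x, ∃ c' : ℝ, 0 ≤ c' ∧ q x = (c' : ℂ) := fun x =>
      ⟨_, by linarith [neg_abs_le (c x - c (x * t))], hqx x⟩
    -- at `x1 = g⁻¹ x0`
    have hx1t : g⁻¹ * x0 * t = x0 := by rw [ht]; group
    have hqz : q (g⁻¹ * x0) = 0 := by
      rw [hqx, hx1t]
      have h1 := hmax (g⁻¹ * x0)
      rw [abs_of_nonpos (by linarith)]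
      push_cast; ring
    have hqz0 : q x0 = 0 := by
      have := eigen_zero k hqe hq0 hqz n
      rw [← hg, mul_inv_cancel_left] at this
      exact this
    have hx0t : x0 * t = g * x0 := by rw [ht]; group
    have h1 : (|c x0 - c (x0 * t)| + (c x0 - c (x0 * t)) : ℝ) = 0 := by
      have := hqx x0
      rw [hqz0] at this
      exact_mod_cast this.symm
    rw [hx0t] at h1
    have h2 := hmax (g * x0)
    rw [abs_of_nonneg (by linarith)] at h1
    linarith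
  have hinf : (Set.range fun n => k n * x0).Infinite := by
    have : (Set.range fun n => k n * x0) = (fun y => y * x0) '' Set.range k := by
      rw [← Set.range_comp]; rfl
    rw [this]
    exact hk.image (mul_left_injective x0).injOn
  apply hinf
  refine (hfin.subset ?_)
  rintro y ⟨n, rfl⟩
  show c x1 ≤ c (k n * x0)
  rw [key n]; exact hx0mem

theorem no_eigen (k : ℕ → G) (hk : (Set.range k).Infinite) {ξ : HH G} {z : ℂ} (hz : ‖z‖ = ‖MM k‖)
    (h : MM k ξ = z • ξ) : ξ = 0 := by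
  have h1 := no_pos_eigen k hk (eigen_ab k hz h)
    (fun x => ⟨‖ξ x‖, norm_nonneg _, ab_apply ξ x⟩)
  have h2 := norm_ab ξ
  rw [h1, norm_zero] at h2
  exact norm_eq_zero.1 h2.symm

lemma MM_pos (k : ℕ → G) : 0 < ‖MM k‖ := by
  rw [norm_pos_iff]
  intro h0
  have h1 := MM_apply k (ee (k 0)) 1
  rw [h0] at h1
  have h2 : (0 : HH G →L[ℂ] HH G) (ee (k 0)) 1 = 0 := by
    rw [show (0 : HH G →L[ℂ] HH G) (ee (k 0)) = 0 from rfl, zero_apply']
  rw [h2] at h1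
  have h3 := Complex.hasSum_re h1
  rw [Complex.zero_re] at h3
  have hnn : ∀ n, 0 ≤ (aw n * (ee (k 0) ((k n)⁻¹ * 1) + ee (k 0) (k n * 1))).re := by
    intro n
    rw [aw, Complex.re_ofReal_mul]
    refine mul_nonneg (by positivity) ?_
    rw [ee_apply, ee_apply, Complex.add_re]
    split_ifs <;> simp
  have h4 := congrFun ((hasSum_zero_iff_of_nonneg hnn).1 h3) 0
  simp only [Pi.zero_apply] at h4
  rw [aw, Complex.re_ofReal_mul, ee_apply, ee_apply, Complex.add_re, mul_one, mul_one, if_pos rfl]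
    at h4
  rcases mul_eq_zero.1 h4 with h | h
  · exact absurd h (by positivity)
  · split_ifs at h <;> norm_num at h

end Pool.Agent.U609.FA
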