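import Mathlib
import Pool.Agent.U609.FA.Disc2

set_option autoImplicit false

/-!
# Powers of the symmetric contraction and their functionals on the Fourier algebra
-/

namespace Pool.Agent.U609.FA

open MeasureTheory MeasureTheory.Measure Filter
open scoped ENNReal ComplexConjugate Topology InnerProductSpace

variable {G : Type*} [Group G] [TopologicalSpace G] [IsTopologicalGroup G] [LocallyCompactSpace G]
  [MeasurableSpace G] [BorelSpace G]

/-! ### operators which give functionals on the Fourier algebra -/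

section good

variable {A : Type*} [NonUnitalNormedRing A] [NormedSpace ℂ A] (F : FourierAlg G A)

/-- the operators which give functionals on the Fourier algebra -/
def good : Set (HH G →L[ℂ] HH G) := {S | ∃ τ : A →L[ℂ] ℂ, F.Rep S τ}

lemma good_add {S S' : HH G →L[ℂ] HH G} (h : S ∈ good F) (h' : S' ∈ good F) : S + S' ∈ good F :=
  ⟨_, h.choose_spec.add h'.choose_spec⟩

lemma good_sub {S S' : HH G →L[ℂ] HH G} (h : S ∈ good F) (h' : S' ∈ good F) : S - S' ∈ good F :=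
  ⟨_, h.choose_spec.sub h'.choose_spec⟩

lemma good_smul {S : HH G →L[ℂ] HH G} (h : S ∈ good F) (c : ℂ) : c • S ∈ good F :=
  ⟨_, h.choose_spec.smul c⟩

lemma good_zero : (0 : HH G →L[ℂ] HH G) ∈ good F := ⟨0, F.rep_zero⟩

lemma good_sum {ι : Type*} (s : Finset ι) (S : ι → HH G →L[ℂ] HH G) (h : ∀ i ∈ s, S i ∈ good F) :
    ∑ i ∈ s, S i ∈ good F := by
  classical
  induction s using Finset.induction_on with
  | empty => simpa using good_zero F
  | insert i s hi ih =>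
    rw [Finset.sum_insert hi]
    exact good_add F (h i (Finset.mem_insert_self i s))
      (ih fun j hj => h j (Finset.mem_insert_of_mem hj))

lemma good_closed : IsClosed (good F) := by
  refine IsSeqClosed.isClosed fun S T hS hT => ?_
  choose τ hτ using hS
  have hc : CauchySeq τ := by
    have h1 := hT.cauchySeq
    refine cauchySeq_of_controlled' h1 hτ
  obtain ⟨σ, hσ⟩ := cauchySeq_tendsto_of_complete hc
  refine ⟨σ, fun a ξ η hr => ?_⟩
  have h1 : Tendsto (fun n => τ n a) atTop (𝓝 (σ a)) :=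
    ((ContinuousLinearMap.apply ℂ ℂ a).continuous.tendsto σ).comp hσ
  have h2 : Tendsto (fun n => ⟪η, S n ξ⟫_ℂ) atTop (𝓝 ⟪η, T ξ⟫_ℂ) :=
    ((innerSL ℂ η).continuous.tendsto _).comp
      (((ContinuousLinearMap.apply ℂ (HH G) ξ).continuous.tendsto T).comp hT)
  have h3 : (fun n => τ n a) = fun n => ⟪η, S n ξ⟫_ℂ := by
    funext n; exact hτ n a ξ η hr
  rw [h3] at h1
  exact tendsto_nhds_unique h1 h2
where
  cauchySeq_of_controlled' {S : ℕ → HH G →L[ℂ] HH G} {τ : ℕ → A →L[ℂ] ℂ} (h1 : CauchySeq S)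
      (hτ : ∀ n, F.Rep (S n) (τ n)) : CauchySeq τ := by
    rw [Metric.cauchySeq_iff] at h1 ⊢
    intro ε hε
    obtain ⟨N, hN⟩ := h1 ε hε
    refine ⟨N, fun m hm n hn => ?_⟩
    have := hN m hm n hn
    rw [dist_eq_norm] at this ⊢
    exact ((hτ m).sub (hτ n)).norm_le.trans_lt this

/-- the left translate of an element of `A(G)` -/
noncomputable def Lsh (s : G) (a : A) : A :=
  (F.mem (F.rep a).choose (lam s⁻¹ (F.rep a).choose_spec.choose)).choose

lemma Lsh_fn (s : G) (a : A) (t : G) : F.fn (Lsh F s a) t = F.fn a (s * t) := by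
  rw [Lsh, (F.mem _ _).choose_spec t, (F.rep a).choose_spec.choose_spec (s * t), coeff_eq,
    coeff_eq, lam_mul, inner_lam s]

lemma good_lam {S : HH G →L[ℂ] HH G} (h : S ∈ good F) (s : G) :
    (lam s).comp S ∈ good F := by
  obtain ⟨τ, hτ⟩ := h
  have hR : F.Rep ((lam s).comp S) (fun a => τ (Lsh F s a)) := by
    intro a ξ η hr
    have h1 : ∀ t, F.fn (Lsh F s a) t = coeff ξ (lam s⁻¹ η) t := by
      intro t
      rw [Lsh_fn, hr, coeff_eq, coeff_eq, lam_mul, inner_lam s]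
    show τ (Lsh F s a) = _
    rw [hτ _ _ _ h1, ContinuousLinearMap.comp_apply, inner_lam s]
  refine ⟨LinearMap.mkContinuous
    { toFun := fun a => τ (Lsh F s a)
      map_add' := fun a b => by
        rw [← map_add]
        congr 1
        apply F.inj
        funext t
        rw [Lsh_fn, F.add, F.add, Lsh_fn, Lsh_fn]
      map_smul' := fun c a => by
        rw [RingHom.id_apply, ← map_smul]
        congr 1
        apply F.inj
        funext t
        rw [Lsh_fn, F.smul, F.smul, Lsh_fn] } _ hR.bound, hR⟩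

lemma good_MM {S : HH G →L[ℂ] HH G} (h : S ∈ good F) (k : ℕ → G) : (MM k).comp S ∈ good F := by
  have h1 : HasSum (fun n => (tm k n).comp S) ((MM k).comp S) :=
    (summable_tm k).hasSum.mapL ((ContinuousLinearMap.compL ℂ (HH G) (HH G) (HH G)).flip S)
  refine (good_closed F).mem_of_tendsto h1 (Eventually.of_forall fun s => ?_)
  refine good_sum F s _ fun n _ => ?_
  have e : (tm k n).comp S = aw n • ((lam (k n)).comp S + (lam (k n)⁻¹).comp S) := by
    ext1 ξ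
    simp [tm, sy]
  rw [e]
  exact good_smul F (good_add F (good_lam F h _) (good_lam F h _)) _

end good

/-- the normalised operator -/
noncomputable def NN (k : ℕ → G) : HH G →L[ℂ] HH G := (((‖MM k‖)⁻¹ : ℝ) : ℂ) • MM k

lemma NN_symm (k : ℕ → G) (ξ ζ : HH G) : ⟪ζ, NN k ξ⟫_ℂ = ⟪NN k ζ, ξ⟫_ℂ := by
  rw [NN, _root_.smul_apply, _root_.smul_apply, inner_smul_right, inner_smul_left,
    Complex.conj_ofReal, MM_symm]

lemma good_pow {A : Type*} [NonUnitalNormedRing A] [NormedSpace ℂ A] (F : FourierAlg G A)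
    (k : ℕ → G) (n : ℕ) : (NN k) ^ n ∈ good F := by
  induction n with
  | zero =>
    refine ⟨F.ev 1, fun a ξ η hr => ?_⟩
    rw [F.rep_lam 1 a ξ η hr, lam_one, pow_zero]
    rfl
  | succ n ih =>
    have e : (NN k) ^ (n + 1) = (((‖MM k‖)⁻¹ : ℝ) : ℂ) • (MM k).comp ((NN k) ^ n) := by
      rw [pow_succ']
      rfl
    rw [e]
    exact good_smul F (good_MM F ih k) _

lemma pow_symm (k : ℕ → G) (n : ℕ) (ξ ζ : HH G) :
    ⟪ζ, ((NN k) ^ n) ξ⟫_ℂ = ⟪((NN k) ^ n) ζ, ξ⟫_ℂ := by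
  induction n generalizing ξ ζ with
  | zero => rfl
  | succ n ih =>
    have e1 : ((NN k) ^ (n + 1)) ξ = NN k (((NN k) ^ n) ξ) := by rw [pow_succ']; rfl
    have e2 : ((NN k) ^ (n + 1)) ζ = ((NN k) ^ n) (NN k ζ) := by rw [pow_succ]; rfl
    rw [e1, e2, NN_symm, ih]

lemma pow_add_apply (k : ℕ → G) (m n : ℕ) (ξ : HH G) :
    ((NN k) ^ (m + n)) ξ = ((NN k) ^ m) (((NN k) ^ n) ξ) := by rw [pow_add]; rfl

lemma inner_pow (k : ℕ → G) (m n : ℕ) (ξ : HH G) :
    ⟪((NN k) ^ m) ξ, ((NN k) ^ n) ξ⟫_ℂ = ⟪ξ, ((NN k) ^ (m + n)) ξ⟫_ℂ := by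
  rw [← pow_symm, pow_add_apply]

lemma inner_pow_self (k : ℕ → G) (n : ℕ) (ξ : HH G) :
    ⟪ξ, ((NN k) ^ (n + n)) ξ⟫_ℂ = ((‖((NN k) ^ n) ξ‖ ^ 2 : ℝ) : ℂ) := by
  rw [← inner_pow, inner_self_eq_norm_sq_to_K]; norm_cast

variable [DiscreteTopology G]

lemma norm_NN (k : ℕ → G) : ‖NN k‖ = 1 := by
  rw [NN, norm_smul, Complex.norm_real, norm_inv, norm_norm, inv_mul_cancel₀ (MM_pos k).ne']

lemma norm_NN_pow (k : ℕ → G) (n : ℕ) : ‖(NN k) ^ (2 ^ n)‖ = 1 := by
  have hs : IsSelfAdjoint (NN k) := by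
    rw [ContinuousLinearMap.isSelfAdjoint_iff_isSymmetric]
    intro ξ ζ
    exact (NN_symm k ζ ξ).symm
  have := IsSelfAdjoint.norm_pow_two_pow (E := HH G →L[ℂ] HH G) hs n
  rw [this, norm_NN, one_pow]

lemma norm_NN_apply (k : ℕ → G) (ξ : HH G) : ‖NN k ξ‖ ≤ ‖ξ‖ := by
  have := (NN k).le_opNorm ξ
  rwa [norm_NN, one_mul] at this

lemma pow_anti (k : ℕ → G) (ξ : HH G) : Antitone fun n => ‖((NN k) ^ n) ξ‖ := by
  refine antitone_nat_of_succ_le fun n => ?_
  have e1 : ((NN k) ^ (n + 1)) ξ = NN k (((NN k) ^ n) ξ) := by rw [pow_succ']; rfl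
  rw [e1]
  exact norm_NN_apply _ _

lemma pow_zero_norm (k : ℕ → G) (ξ : HH G) (n : ℕ) : ‖((NN k) ^ n) ξ‖ ≤ ‖ξ‖ := by
  have := pow_anti k ξ (Nat.zero_le n)
  simpa using this

lemma NN_no_fix (k : ℕ → G) (hk : (Set.range k).Infinite) {ξ : HH G} (h : NN k (NN k ξ) = ξ) :
    ξ = 0 := by
  have hr := MM_pos k
  have hrc : ((‖MM k‖ : ℝ) : ℂ) ≠ 0 := by exact_mod_cast hr.ne'
  have hM : ∀ ζ : HH G, MM k ζ = ((‖MM k‖ : ℝ) : ℂ) • NN k ζ := by
    intro ζ
    rw [NN, _root_.smul_apply, smul_smul, Complex.ofReal_inv, mul_inv_cancel₀ hrc, one_smul]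
  have h1 : ξ + NN k ξ = 0 := by
    refine no_eigen k hk (z := ((‖MM k‖ : ℝ) : ℂ)) (by simp) ?_
    rw [hM, map_add, h, add_comm]
  have h2 : ξ - NN k ξ = 0 := by
    refine no_eigen k hk (z := -((‖MM k‖ : ℝ) : ℂ)) (by simp) ?_
    rw [hM, map_sub, h, neg_smul, ← smul_neg, neg_sub]
  have h3 : (2 : ℂ) • ξ = 0 := by
    have : (2 : ℂ) • ξ = (ξ + NN k ξ) + (ξ - NN k ξ) := by rw [two_smul]; abel
    rw [this, h1, h2, add_zero]
  exact (smul_eq_zero.1 h3).resolve_left two_ne_zero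

theorem pow_tendsto (k : ℕ → G) (hk : (Set.range k).Infinite) (ξ : HH G) :
    Tendsto (fun n => ((NN k) ^ (2 * n)) ξ) atTop (𝓝 0) := by
  set β : ℕ → ℝ := fun n => ‖((NN k) ^ n) ξ‖ ^ 2 with hβ
  have hanti : Antitone β := fun m n h =>
    pow_le_pow_left₀ (norm_nonneg _) (pow_anti k ξ h) 2
  have hbdd : BddBelow (Set.range β) := ⟨0, by rintro _ ⟨n, rfl⟩; exact sq_nonneg _⟩
  have hlim := tendsto_atTop_ciInf hanti hbdd
  set L := ⨅ n, β n with hL
  have hd : ∀ m n, ‖((NN k) ^ (2 * m)) ξ - ((NN k) ^ (2 * n)) ξ‖ ^ 2 =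
      β (2 * m) - 2 * β (m + n) + β (2 * n) := by
    intro m n
    have e1 : ‖((NN k) ^ (2 * m)) ξ - ((NN k) ^ (2 * n)) ξ‖ ^ 2 = ‖((NN k) ^ (2 * m)) ξ‖ ^ 2 -
        2 * (⟪((NN k) ^ (2 * m)) ξ, ((NN k) ^ (2 * n)) ξ⟫_ℂ).re + ‖((NN k) ^ (2 * n)) ξ‖ ^ 2 :=
      norm_sub_sq (𝕜 := ℂ) _ _
    rw [e1, inner_pow, show 2 * m + 2 * n = (m + n) + (m + n) by ring, inner_pow_self,
      Complex.ofReal_re]
  have hc : CauchySeq fun n => ((NN k) ^ (2 * n)) ξ := by
    rw [Metric.cauchySeq_iff]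
    intro ε hε
    have h1 := (Metric.tendsto_atTop.1 hlim) (ε ^ 2 / 8) (by positivity)
    obtain ⟨K, hK⟩ := h1
    refine ⟨K, fun m hm n hn => ?_⟩
    rw [dist_eq_norm]
    have a1 := hK (2 * m) (by omega)
    have a2 := hK (2 * n) (by omega)
    have a3 := hK (m + n) (by omega)
    rw [Real.dist_eq, abs_lt] at a1 a2 a3
    have h2 : ‖((NN k) ^ (2 * m)) ξ - ((NN k) ^ (2 * n)) ξ‖ ^ 2 < ε ^ 2 := by
      rw [hd]
      have : 0 < ε ^ 2 := by positivity
      linarith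
    exact lt_of_pow_lt_pow_left₀ 2 hε.le h2
  obtain ⟨ζ, hζ⟩ := cauchySeq_tendsto_of_complete hc
  have h1 : Tendsto (fun n => ((NN k) ^ (2 * (n + 1))) ξ) atTop (𝓝 ζ) :=
    hζ.comp (tendsto_add_atTop_nat 1)
  have h2 : Tendsto (fun n => NN k (NN k (((NN k) ^ (2 * n)) ξ))) atTop (𝓝 (NN k (NN k ζ))) :=
    (((NN k).continuous.comp (NN k).continuous).tendsto ζ).comp hζ
  have e : (fun n => NN k (NN k (((NN k) ^ (2 * n)) ξ))) = fun n => ((NN k) ^ (2 * (n + 1))) ξ := by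
    funext n
    rw [show 2 * (n + 1) = 1 + (1 + 2 * n) by ring, pow_add_apply, pow_add_apply, pow_one]
  rw [e] at h2
  have h3 := NN_no_fix k hk (tendsto_nhds_unique h2 h1)
  rwa [h3] at hζ

/-- the finitely supported vectors -/
noncomputable def fs (G : Type*) [Group G] [TopologicalSpace G] [IsTopologicalGroup G]
    [LocallyCompactSpace G] [MeasurableSpace G] [BorelSpace G] [DiscreteTopology G] :
    Submodule ℂ (HH G) := Submodule.span ℂ (Set.range ee)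

lemma fs_finite {ξ : HH G} (h : ξ ∈ fs G) : {x | ξ x ≠ 0}.Finite := by
  induction h using Submodule.span_induction with
  | mem ξ hξ =>
    obtain ⟨x, rfl⟩ := hξ
    refine (Set.finite_singleton x).subset fun y hy => ?_
    by_contra hne
    exact hy (by rw [ee_apply, if_neg (fun h => hne (Set.mem_singleton_iff.2 h))])
  | zero => simp
  | add ξ ζ _ _ h1 h2 =>
    refine (h1.union h2).subset fun y hy => ?_
    by_contra hne
    simp only [Set.mem_union, Set.mem_ofPred_eq, not_or, not_not] at hne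
    exact hy (by rw [add_apply', hne.1, hne.2, add_zero])
  | smul c ξ _ h1 =>
    refine h1.subset fun y hy hz => hy ?_
    rw [smul_apply', hz, mul_zero]

lemma fs_dense : (fs G).topologicalClosure = ⊤ := by
  rw [Submodule.topologicalClosure_eq_top_iff, Submodule.eq_bot_iff]
  intro ζ hζ
  apply ext'
  intro x
  rw [zero_apply']
  have h1 := (Submodule.mem_orthogonal _ _).1 hζ (ee x) (Submodule.subset_span ⟨x, rfl⟩)
  rw [inner_ee] at h1
  exact (mul_eq_zero.1 h1).resolve_left (cc_ne G)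

lemma exists_vec (k : ℕ → G) (j : ℕ) {δ : ℝ} (hδ : 0 < δ) (hδ1 : δ ≤ 1) :
    ∃ ξ : HH G, ‖ξ‖ = 1 ∧ {x | ξ x ≠ 0}.Finite ∧ 1 - δ ≤ ‖((NN k) ^ (2 ^ j)) ξ‖ ^ 2 := by
  set P := (NN k) ^ (2 ^ j) with hP
  have h1 : ∃ ξ ∈ fs G, (1 - δ / 2) * ‖ξ‖ < ‖P ξ‖ := by
    by_contra hc
    push Not at hc
    have hcl : IsClosed {ξ : HH G | ‖P ξ‖ ≤ (1 - δ / 2) * ‖ξ‖} :=
      isClosed_le P.continuous.norm (continuous_const.mul continuous_norm)
    have hsub : ((fs G).topologicalClosure : Set (HH G)) ⊆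
        {ξ : HH G | ‖P ξ‖ ≤ (1 - δ / 2) * ‖ξ‖} := by
      rw [Submodule.topologicalClosure_coe]
      exact closure_minimal (fun ξ hξ => hc ξ hξ) hcl
    rw [fs_dense] at hsub
    have h2 : ‖P‖ ≤ 1 - δ / 2 :=
      P.opNorm_le_bound (by linarith) fun ξ => hsub (Set.mem_univ ξ)
    rw [hP, norm_NN_pow] at h2
    linarith
  obtain ⟨ξ, hξ, hlt⟩ := h1
  have hξ0 : 0 < ‖ξ‖ := by
    rcases (norm_nonneg ξ).eq_or_lt with h | h
    · have : ξ = 0 := norm_eq_zero.1 h.symm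
      rw [this] at hlt
      simp at hlt
    · exact h
  refine ⟨((‖ξ‖⁻¹ : ℝ) : ℂ) • ξ, ?_, ?_, ?_⟩
  · rw [norm_smul, Complex.norm_real, norm_inv, norm_norm, inv_mul_cancel₀ hξ0.ne']
  · exact fs_finite (Submodule.smul_mem _ _ hξ)
  · rw [map_smul, norm_smul, Complex.norm_real, norm_inv, norm_norm]
    have h3 : 1 - δ / 2 ≤ ‖ξ‖⁻¹ * ‖P ξ‖ := by
      rw [le_inv_mul_iff₀ hξ0, mul_comm]; exact hlt.le
    have h4 : (1 - δ / 2) ^ 2 ≤ (‖ξ‖⁻¹ * ‖P ξ‖) ^ 2 := pow_le_pow_left₀ (by linarith) h3 2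
    nlinarith

end Pool.Agent.U609.FA
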