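import Mathlib
import Pool.Agent.H434R3.Arens

set_option autoImplicit false

/-!
# A criterion for the radical of the second dual of a commutative Banach algebra
-/

namespace Pool.Agent.U609.FA

open H434R3.Arens Filter
open scoped Topology

variable {A : Type*} [NonUnitalNormedRing A] [NormedSpace ℂ A] [IsScalarTower ℂ A A]
  [SMulCommClass ℂ A A]

/-- the limit of a bounded sequence along a free ultrafilter -/
noncomputable def ul (x : ℕ → ℂ) : ℂ := limUnder (hyperfilter ℕ : Filter ℕ) x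

lemma ul_tendsto {x : ℕ → ℂ} {C : ℝ} (h : ∀ n, ‖x n‖ ≤ C) :
    Tendsto x (hyperfilter ℕ : Filter ℕ) (𝓝 (ul x)) := by
  have hc : IsCompact (Metric.closedBall (0 : ℂ) C) := isCompact_closedBall 0 C
  have hle : ((hyperfilter ℕ).map x : Filter ℂ) ≤ 𝓟 (Metric.closedBall (0 : ℂ) C) := by
    rw [le_principal_iff]
    show x ⁻¹' (Metric.closedBall (0 : ℂ) C) ∈ (hyperfilter ℕ : Filter ℕ)
    exact Filter.univ_mem' fun n => by simpa using h n
  obtain ⟨y, -, hy⟩ := hc.ultrafilter_le_nhds ((hyperfilter ℕ).map x) hle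
  exact tendsto_nhds_limUnder ⟨y, hy⟩

lemma ul_eq {x : ℕ → ℂ} {y : ℂ} (h : Tendsto x (hyperfilter ℕ : Filter ℕ) (𝓝 y)) : ul x = y :=
  h.limUnder_eq

lemma hyper_le : (hyperfilter ℕ : Filter ℕ) ≤ atTop := by
  rw [← Nat.cofinite_eq_atTop]; exact hyperfilter_le_cofinite

/-- the weak* cluster point of a bounded sequence in `X` as a functional on `X'` -/
noncomputable def wlim {X : Type*} [NormedAddCommGroup X] [NormedSpace ℂ X] (w : ℕ → X) {C : ℝ}
    (hw : ∀ n, ‖w n‖ ≤ C) : (X →L[ℂ] ℂ) →L[ℂ] ℂ :=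
  LinearMap.mkContinuous
    { toFun := fun f => ul fun n => f (w n)
      map_add' := fun f g => by
        have hf : ∀ n, ‖f (w n)‖ ≤ ‖f‖ * C := fun n =>
          (f.le_opNorm _).trans (mul_le_mul_of_nonneg_left (hw n) (norm_nonneg _))
        have hg : ∀ n, ‖g (w n)‖ ≤ ‖g‖ * C := fun n =>
          (g.le_opNorm _).trans (mul_le_mul_of_nonneg_left (hw n) (norm_nonneg _))
        exact ul_eq ((ul_tendsto hf).add (ul_tendsto hg))
      map_smul' := fun c f => by
        have hf : ∀ n, ‖f (w n)‖ ≤ ‖f‖ * C := fun n =>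
          (f.le_opNorm _).trans (mul_le_mul_of_nonneg_left (hw n) (norm_nonneg _))
        exact ul_eq ((ul_tendsto hf).const_mul c) } C
    (fun f => by
      have hf : ∀ n, ‖f (w n)‖ ≤ ‖f‖ * C := fun n =>
        (f.le_opNorm _).trans (mul_le_mul_of_nonneg_left (hw n) (norm_nonneg _))
      have := le_of_tendsto (ul_tendsto hf).norm (Eventually.of_forall hf)
      rw [mul_comm]; exact this)

lemma wlim_apply {X : Type*} [NormedAddCommGroup X] [NormedSpace ℂ X] (w : ℕ → X) {C : ℝ}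
    (hw : ∀ n, ‖w n‖ ≤ C) (f : X →L[ℂ] ℂ) : wlim w hw f = ul fun n => f (w n) := rfl

lemma wlim_tendsto {X : Type*} [NormedAddCommGroup X] [NormedSpace ℂ X] (w : ℕ → X) {C : ℝ}
    (hw : ∀ n, ‖w n‖ ≤ C) (f : X →L[ℂ] ℂ) :
    Tendsto (fun n => f (w n)) (hyperfilter ℕ : Filter ℕ) (𝓝 (wlim w hw f)) :=
  ul_tendsto (C := ‖f‖ * C) fun n =>
    (f.le_opNorm _).trans (mul_le_mul_of_nonneg_left (hw n) (norm_nonneg _))

/-- **Criterion.** Let `(w n)` be a bounded sequence in the commutative normed algebra `A` with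
`‖w n * w m‖ → 0` as `m → ∞` for each `n`, and let `T ∈ A'` with `|T (w n)| ≥ 1/2` for all `n`.
Then `(A'', □)` has an element `Φ ≠ 0` in the radical with `Φ □ Ψ □ Φ = 0` for all `Ψ`. -/
theorem exists_rad (hcomm : ∀ a b : A, a * b = b * a) (w : ℕ → A) {C : ℝ} (hw : ∀ n, ‖w n‖ ≤ C)
    (hww : ∀ n, Tendsto (fun m => ‖w n * w m‖) atTop (𝓝 0)) (T : A →L[ℂ] ℂ)
    (hT : ∀ n, (1 : ℝ) / 2 ≤ ‖T (w n)‖) :
    ∃ Φ : Bidual A, Φ ≠ 0 ∧ InRad Φ ∧ ∀ Ψ : Bidual A, Φ * Ψ * Φ = 0 := by
  set Φ : Bidual A := wlim w hw with hΦ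
  have hev : ∀ f : A →L[ℂ] ℂ, ev Φ f = wlim w hw f := fun f => rfl
  have h0 : ∀ Ψ : Bidual A, Φ * Ψ * Φ = 0 := by
    intro Ψ
    refine ext_ev fun f => ?_
    rw [mul_def, mul_def, ev_box, ev_box, ev_zero, hev]
    -- `psi Φ (hmod f (w n)) = 0`
    have key : ∀ n, psi Φ (hmod f (w n)) = 0 := by
      intro n
      ext a
      rw [psi_apply', hev]
      have h1 := wlim_tendsto w hw (hmod (hmod f (w n)) a)
      have h2 : Tendsto (fun m => (hmod (hmod f (w n)) a) (w m)) (hyperfilter ℕ : Filter ℕ)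
          (𝓝 0) := by
        have h3 : Tendsto (fun m => ‖f‖ * (‖a‖ * ‖w n * w m‖)) (hyperfilter ℕ : Filter ℕ)
            (𝓝 0) := by
          have := ((hww n).mono_left hyper_le).const_mul (‖f‖ * ‖a‖)
          simpa [mul_assoc] using this
        refine squeeze_zero_norm (fun m => ?_) h3
        rw [hmod_apply, hmod_apply]
        have e : w n * (a * w m) = a * (w n * w m) := by
          rw [← mul_assoc, hcomm (w n) a, mul_assoc]
        rw [e]
        exact (f.le_opNorm _).trans (mul_le_mul_of_nonneg_left (norm_mul_le _ _) (norm_nonneg _))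
      simpa using tendsto_nhds_unique h1 h2
    have e2 : ∀ n, (psi Ψ (psi Φ f)) (w n) = 0 := by
      intro n
      rw [psi_apply', ← psi_hmod, key n, ev_map_zero]
    have h1 := wlim_tendsto w hw (psi Ψ (psi Φ f))
    simp only [e2] at h1
    exact (tendsto_nhds_unique h1 tendsto_const_nhds)
  refine ⟨Φ, ?_, ?_, h0⟩
  · intro h
    have h1 := (wlim_tendsto w hw T).norm
    have h2 : wlim w hw T = 0 := by rw [← hev, h, ev_zero]
    rw [h2, norm_zero] at h1
    have := ge_of_tendsto h1 (Eventually.of_forall hT)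
    norm_num at this
  · exact inRad_of_nil Φ h0

end Pool.Agent.U609.FA
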