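import Mathlib
import Pool.Agent.U609.FA.Crit

set_option autoImplicit false

/-!
# The oscillation lemma
-/

namespace Pool.Agent.U609.FA

open H434R3.Arens Filter
open scoped Topology

variable {A : Type*} [NonUnitalNormedRing A] [NormedSpace ℂ A] [IsScalarTower ℂ A A]
  [SMulCommClass ℂ A A]

theorem final_step (hcomm : ∀ a b : A, a * b = b * a) (τ : ℕ → A →L[ℂ] ℂ) (u : ℕ → A)
    (hu : ∀ k, ‖u k‖ ≤ 1) {C : ℝ}
    (hS : ∀ N, ‖∑ j ∈ Finset.range N, (τ (2 * j + 1) - τ (2 * j))‖ ≤ C) (α β : ℂ)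
    (hαβ : ‖β - α‖ = 1)
    (h1 : ∀ i k, i ≤ k → ‖τ i (u k) - α‖ ≤ (1 / 32) * (1 / 2) ^ k)
    (h2 : ∀ i k, k < i → ‖τ i (u k) - β‖ ≤ (1 / 32) * (1 / 2) ^ i)
    (hww : ∀ i, Tendsto (fun m => ‖(u (2 * i) - u (2 * i + 1)) * (u (2 * m) - u (2 * m + 1))‖)
      atTop (𝓝 0)) :
    ∃ Φ : Bidual A, Φ ≠ 0 ∧ InRad Φ ∧ ∀ Ψ : Bidual A, Φ * Ψ * Φ = 0 := by
  set S : ℕ → (A →L[ℂ] ℂ) := fun N => ∑ j ∈ Finset.range N, (τ (2 * j + 1) - τ (2 * j)) with hSdef
  have hSapp : ∀ N a, S N a = ∑ j ∈ Finset.range N, (τ (2 * j + 1) a - τ (2 * j) a) := by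
    intro N a
    rw [hSdef]
    simp
  have pw : ∀ {i j : ℕ}, i ≤ j → ((1 : ℝ) / 2) ^ j ≤ (1 / 2) ^ i := fun h =>
    pow_le_pow_of_le_one (by norm_num) (by norm_num) h
  -- each term
  have term : ∀ j k, ‖(τ (2 * j + 1) (u k) - τ (2 * j) (u k)) -
      (if k = 2 * j then β - α else 0)‖ ≤ (1 / 16) * (1 / 2) ^ j := by
    intro j k
    split_ifs with hk
    · have e : (τ (2 * j + 1) (u k) - τ (2 * j) (u k)) - (β - α)
          = (τ (2 * j + 1) (u k) - β) - (τ (2 * j) (u k) - α) := by ring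
      rw [e]
      refine (norm_sub_le _ _).trans ?_
      have a1 := h2 (2 * j + 1) k (by omega)
      have a2 := h1 (2 * j) k (by omega)
      have b1 := pw (show j ≤ 2 * j + 1 by omega)
      have b2 := pw (show j ≤ k by omega)
      linarith
    · rcases lt_or_gt_of_ne hk with hlt | hgt
      · -- k < 2 j
        have e : (τ (2 * j + 1) (u k) - τ (2 * j) (u k)) - 0
            = (τ (2 * j + 1) (u k) - β) - (τ (2 * j) (u k) - β) := by ring
        rw [e]
        refine (norm_sub_le _ _).trans ?_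
        have a1 := h2 (2 * j + 1) k (by omega)
        have a2 := h2 (2 * j) k (by omega)
        have b1 := pw (show j ≤ 2 * j + 1 by omega)
        have b2 := pw (show j ≤ 2 * j by omega)
        linarith
      · have e : (τ (2 * j + 1) (u k) - τ (2 * j) (u k)) - 0
            = (τ (2 * j + 1) (u k) - α) - (τ (2 * j) (u k) - α) := by ring
        rw [e]
        refine (norm_sub_le _ _).trans ?_
        have a1 := h1 (2 * j + 1) k (by omega)
        have a2 := h1 (2 * j) k (by omega)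
        have b1 := pw (show j ≤ k by omega)
        linarith
  have geo : ∀ N : ℕ, ∑ j ∈ Finset.range N, ((1 : ℝ) / 16) * (1 / 2) ^ j ≤ 1 / 8 := by
    intro N
    rw [← Finset.mul_sum]
    have := geom_sum_eq (show (1 : ℝ) / 2 ≠ 1 by norm_num) N
    rw [this]
    have hp : (0 : ℝ) ≤ (1 / 2) ^ N := by positivity
    have : ((1 / 2 : ℝ) ^ N - 1) / (1 / 2 - 1) = 2 * (1 - (1 / 2) ^ N) := by
      field_simp; ring
    rw [this]; linarith
  have tot : ∀ N k, ‖S N (u k) - ∑ j ∈ Finset.range N, (if k = 2 * j then β - α else 0)‖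
      ≤ 1 / 8 := by
    intro N k
    rw [hSapp, ← Finset.sum_sub_distrib]
    exact (norm_sum_le _ _).trans ((Finset.sum_le_sum fun j _ => term j k).trans (geo N))
  have ev : ∀ i N, i < N → ‖S N (u (2 * i) - u (2 * i + 1)) - (β - α)‖ ≤ 1 / 4 := by
    intro i N hiN
    have s1 : ∑ j ∈ Finset.range N, (if 2 * i = 2 * j then β - α else 0) = β - α := by
      rw [Finset.sum_eq_single i]
      · simp
      · intro j _ hj
        rw [if_neg]; omega
      · intro h; exact absurd (Finset.mem_range.2 hiN) h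
    have s2 : ∑ j ∈ Finset.range N, (if 2 * i + 1 = 2 * j then β - α else 0) = 0 := by
      refine Finset.sum_eq_zero fun j _ => ?_
      rw [if_neg]; omega
    have t1 := tot N (2 * i)
    have t2 := tot N (2 * i + 1)
    rw [s1] at t1
    rw [s2] at t2
    have e : S N (u (2 * i) - u (2 * i + 1)) - (β - α)
        = (S N (u (2 * i)) - (β - α)) - (S N (u (2 * i + 1)) - 0) := by
      rw [map_sub]; ring
    rw [e]
    refine (norm_sub_le _ _).trans ?_
    linarith
  set T : A →L[ℂ] ℂ := (wlim S hS).comp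
    (NormedSpace.inclusionInDoubleDual ℂ A) with hT
  have hTlim : ∀ a, Tendsto (fun N => S N a) (hyperfilter ℕ : Filter ℕ) (𝓝 (T a)) := by
    intro a
    exact wlim_tendsto S hS (NormedSpace.inclusionInDoubleDual ℂ A a)
  refine exists_rad hcomm (fun i => u (2 * i) - u (2 * i + 1)) (C := 2) (fun i => ?_) hww T
    (fun i => ?_)
  · exact (norm_sub_le _ _).trans (by linarith [hu (2 * i), hu (2 * i + 1)])
  · have l1 := (hTlim (u (2 * i) - u (2 * i + 1))).norm
    refine ge_of_tendsto l1 ?_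
    have : ∀ᶠ N in (hyperfilter ℕ : Filter ℕ), i < N := hyper_le (eventually_gt_atTop i)
    filter_upwards [this] with N hN
    have h := ev i N hN
    have h3 : ‖β - α‖ ≤ ‖S N (u (2 * i) - u (2 * i + 1))‖ +
        ‖S N (u (2 * i) - u (2 * i + 1)) - (β - α)‖ := by
      have := norm_sub_le (S N (u (2 * i) - u (2 * i + 1)))
        (S N (u (2 * i) - u (2 * i + 1)) - (β - α))
      rwa [sub_sub_cancel] at this
    rw [hαβ] at h3
    linarith

end Pool.Agent.U609.FA
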