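import Mathlib

set_option autoImplicit false

/-!
# Almost orthogonal sums of differences of positive contractions
-/

namespace Pool.Agent.U609.FA

open scoped InnerProductSpace

variable {E : Type*} [NormedAddCommGroup E] [InnerProductSpace ℂ E]

/-- the partial sums `∑_{j<N} (F (2j+1) - F (2j))` -/
noncomputable def psum {X : Type*} [AddCommGroup X] (F : ℕ → X) (N : ℕ) : X :=
  ∑ j ∈ Finset.range N, (F (2 * j + 1) - F (2 * j))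

lemma psum_succ {X : Type*} [AddCommGroup X] (F : ℕ → X) (N : ℕ) :
    psum F (N + 1) = psum F N + (F (2 * N + 1) - F (2 * N)) := Finset.sum_range_succ _ _

lemma psum_apply (F : ℕ → E →L[ℂ] E) (N : ℕ) (ξ : E) :
    psum F N ξ = ∑ j ∈ Finset.range N, (F (2 * j + 1) ξ - F (2 * j) ξ) := by
  rw [psum]; simp

variable (F : ℕ → E →L[ℂ] E) (η : ℝ) (hη : 0 ≤ η)

include hη in
lemma near_psum (N : ℕ) (P : E →L[ℂ] E)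
    (h : ∀ i < 2 * N, ∀ ξ, ‖P (F i ξ) - F i ξ‖ ≤ η * ‖ξ‖) (ξ : E) :
    ‖P (psum F N ξ) - psum F N ξ‖ ≤ 2 * N * η * ‖ξ‖ := by
  have e : P (psum F N ξ) - psum F N ξ = ∑ j ∈ Finset.range N,
      ((P (F (2 * j + 1) ξ) - F (2 * j + 1) ξ) - (P (F (2 * j) ξ) - F (2 * j) ξ)) := by
    rw [psum_apply, map_sum, ← Finset.sum_sub_distrib]
    refine Finset.sum_congr rfl fun j _ => ?_
    rw [map_sub]; abel
  rw [e]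
  refine (norm_sum_le _ _).trans ?_
  have : ∀ j ∈ Finset.range N,
      ‖(P (F (2 * j + 1) ξ) - F (2 * j + 1) ξ) - (P (F (2 * j) ξ) - F (2 * j) ξ)‖
        ≤ 2 * (η * ‖ξ‖) := by
    intro j hj
    have hj := Finset.mem_range.1 hj
    refine (norm_sub_le _ _).trans ?_
    linarith [h (2 * j + 1) (by omega) ξ, h (2 * j) (by omega) ξ]
  refine (Finset.sum_le_sum this).trans ?_
  rw [Finset.sum_const, Finset.card_range, nsmul_eq_mul]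
  exact le_of_eq (by ring)

lemma psum_symm (hs : ∀ i ξ ζ, ⟪ζ, F i ξ⟫_ℂ = ⟪F i ζ, ξ⟫_ℂ) (N : ℕ) (ξ ζ : E) :
    ⟪ζ, psum F N ξ⟫_ℂ = ⟪psum F N ζ, ξ⟫_ℂ := by
  rw [psum_apply, psum_apply, inner_sum, sum_inner]
  refine Finset.sum_congr rfl fun j _ => ?_
  rw [inner_sub_right, inner_sub_left, hs, hs]

theorem psum_bound (hs : ∀ i ξ ζ, ⟪ζ, F i ξ⟫_ℂ = ⟪F i ζ, ξ⟫_ℂ)
    (hp : ∀ i ξ, ‖F i ξ‖ ^ 2 ≤ (⟪ξ, F i ξ⟫_ℂ).re)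
    (hc : ∀ i ξ, ‖F i ξ‖ ≤ ‖ξ‖)
    (hF : ∀ i k, i < k → ∀ ξ, ‖F k (F i ξ) - F i ξ‖ ≤ (1 / 64) * (1 / 2) ^ k * ‖ξ‖) (N : ℕ) :
    ∀ ξ, ‖psum F N ξ‖ ^ 2 ≤ (2 - (1 / 2) ^ N) * ‖ξ‖ ^ 2 := by
  induction N with
  | zero => intro ξ; simp [psum]
  | succ N ih =>
    intro ξ
    set η : ℝ := (1 / 64) * (1 / 2) ^ (2 * N) with hη
    have hη0 : 0 ≤ η := by positivity
    set Q := F (2 * N) with hQ
    set R := F (2 * N + 1) with hR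
    set S := psum F N with hS
    have q1 : ∀ i < 2 * N, ∀ ξ, ‖Q (F i ξ) - F i ξ‖ ≤ η * ‖ξ‖ := fun i hi ξ => hF i _ hi ξ
    have r1 : ∀ i < 2 * N + 1, ∀ ξ, ‖R (F i ξ) - F i ξ‖ ≤ η * ‖ξ‖ := fun i hi ξ => by
      refine (hF i _ hi ξ).trans (mul_le_mul_of_nonneg_right ?_ (norm_nonneg _))
      rw [hη, pow_succ]
      have : (0 : ℝ) ≤ (1 / 2) ^ (2 * N) := by positivity
      linarith
    have q2 : ∀ ξ, ‖Q (S ξ) - S ξ‖ ≤ 2 * N * η * ‖ξ‖ := near_psum F η hη0 N Q q1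
    have r2 : ∀ ξ, ‖R (S ξ) - S ξ‖ ≤ 2 * N * η * ‖ξ‖ :=
      near_psum F η hη0 N R fun i hi ξ => r1 i (by omega) ξ
    have hsS : ∀ ξ ζ, ⟪ζ, S ξ⟫_ℂ = ⟪S ζ, ξ⟫_ℂ := psum_symm F hs N
    have s1 : ∀ ξ, ‖S (Q ξ) - S ξ‖ ≤ 2 * N * η * ‖ξ‖ := by
      intro ξ
      set v := S (Q ξ) - S ξ with hv
      have e : ⟪v, v⟫_ℂ = ⟪Q (S v) - S v, ξ⟫_ℂ := by
        conv_lhs => rw [hv]
        rw [inner_sub_right, hsS, hsS, hs, ← inner_sub_left]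
      have h1 : ‖v‖ ^ 2 ≤ 2 * N * η * ‖v‖ * ‖ξ‖ := by
        have h2 : ‖⟪v, v⟫_ℂ‖ = ‖v‖ ^ 2 := by
          rw [inner_self_eq_norm_sq_to_K]; simp
        rw [← h2, e]
        exact (norm_inner_le_norm _ _).trans (mul_le_mul_of_nonneg_right (q2 v) (norm_nonneg _))
      rcases (norm_nonneg v).eq_or_lt with h0 | h0
      · rw [← h0]; positivity
      · have : ‖v‖ * ‖v‖ ≤ ‖v‖ * (2 * N * η * ‖ξ‖) := by nlinarith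
        exact le_of_mul_le_mul_left this h0
    -- the cross term
    have cross : (⟪S ξ, R ξ - Q ξ⟫_ℂ).re ≤ 4 * N * η * ‖ξ‖ ^ 2 := by
      have e : ⟪S ξ, R ξ - Q ξ⟫_ℂ = ⟪(R (S ξ) - S ξ) - (Q (S ξ) - S ξ), ξ⟫_ℂ := by
        rw [inner_sub_right, hs, hs, ← inner_sub_left]; congr 1; abel
      rw [e]
      refine (Complex.re_le_norm _).trans ((norm_inner_le_norm _ _).trans ?_)
      have := (norm_sub_le (R (S ξ) - S ξ) (Q (S ξ) - S ξ)).trans (add_le_add (r2 ξ) (q2 ξ))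
      calc _ ≤ (2 * N * η * ‖ξ‖ + 2 * N * η * ‖ξ‖) * ‖ξ‖ :=
            mul_le_mul_of_nonneg_right this (norm_nonneg _)
        _ = 4 * N * η * ‖ξ‖ ^ 2 := by ring
    have hQ1 : ‖Q ξ‖ ≤ ‖ξ‖ := hc _ _
    have hBle : (2 : ℝ) - (1 / 2) ^ N ≤ 2 := by
      have : (0 : ℝ) ≤ (1 / 2) ^ N := by positivity
      linarith
    have hB1 : (1 : ℝ) ≤ 2 - (1 / 2) ^ N := by
      have : ((1 : ℝ) / 2) ^ N ≤ 1 := pow_le_one₀ (by norm_num) (by norm_num)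
      linarith
    have sQ : ‖S (Q ξ)‖ ^ 2 ≤ (2 - (1 / 2) ^ N) * ‖Q ξ‖ ^ 2 := ih (Q ξ)
    have sQ2 : ‖S (Q ξ)‖ ≤ 2 * ‖ξ‖ := by
      have h1 : ‖S (Q ξ)‖ ^ 2 ≤ (2 * ‖ξ‖) ^ 2 := by
        have h2 : ‖Q ξ‖ ^ 2 ≤ ‖ξ‖ ^ 2 := pow_le_pow_left₀ (norm_nonneg _) hQ1 2
        nlinarith [sq_nonneg ‖Q ξ‖, sq_nonneg ‖ξ‖]
      exact le_of_sq_le_sq h1 (by positivity)
    set c : ℝ := 2 * N * η with hcdef
    have hc0 : 0 ≤ c := by positivity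
    have sS : ‖S ξ‖ ^ 2 ≤ (2 - (1 / 2) ^ N) * ‖Q ξ‖ ^ 2 + (4 * c + c ^ 2) * ‖ξ‖ ^ 2 := by
      have h1 : ‖S ξ‖ ≤ ‖S (Q ξ)‖ + c * ‖ξ‖ := by
        have := norm_sub_le (S (Q ξ)) (S (Q ξ) - S ξ)
        rw [sub_sub_cancel] at this
        linarith [s1 ξ]
      have h2 : ‖S ξ‖ ^ 2 ≤ (‖S (Q ξ)‖ + c * ‖ξ‖) ^ 2 := pow_le_pow_left₀ (norm_nonneg _) h1 2
      have h3 : ‖S (Q ξ)‖ * (c * ‖ξ‖) ≤ 2 * ‖ξ‖ * (c * ‖ξ‖) :=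
        mul_le_mul_of_nonneg_right sQ2 (by positivity)
      nlinarith
    -- `‖Q ξ‖² + ‖D ξ‖² ≤ (1 + 2 η) ‖ξ‖²`
    have qd : ‖Q ξ‖ ^ 2 + ‖R ξ - Q ξ‖ ^ 2 ≤ (1 + 2 * η) * ‖ξ‖ ^ 2 := by
      have e1 : ‖R ξ - Q ξ‖ ^ 2 = ‖R ξ‖ ^ 2 - 2 * (⟪R ξ, Q ξ⟫_ℂ).re + ‖Q ξ‖ ^ 2 :=
        norm_sub_sq (𝕜 := ℂ) (R ξ) (Q ξ)
      have e2 : ⟪R ξ, Q ξ⟫_ℂ = ⟪ξ, Q ξ⟫_ℂ + ⟪ξ, R (Q ξ) - Q ξ⟫_ℂ := by
        rw [inner_sub_right, ← hs]; ring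
      have e3 : (⟪R ξ, Q ξ⟫_ℂ).re = (⟪ξ, Q ξ⟫_ℂ).re + (⟪ξ, R (Q ξ) - Q ξ⟫_ℂ).re := by
        rw [e2, Complex.add_re]
      have e4 : -(η * ‖ξ‖ ^ 2) ≤ (⟪ξ, R (Q ξ) - Q ξ⟫_ℂ).re := by
        have h1 : |(⟪ξ, R (Q ξ) - Q ξ⟫_ℂ).re| ≤ ‖ξ‖ * ‖R (Q ξ) - Q ξ‖ :=
          (Complex.abs_re_le_norm _).trans (norm_inner_le_norm _ _)
        have h2 := r1 (2 * N) (by omega) ξ
        have h3 := mul_le_mul_of_nonneg_left h2 (norm_nonneg ξ)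
        have h4 := (abs_le.1 h1).1
        have h5 : ‖ξ‖ * (η * ‖ξ‖) = η * ‖ξ‖ ^ 2 := by ring
        linarith
      have e5 := hp (2 * N) ξ
      have e6 : ‖R ξ‖ ^ 2 ≤ ‖ξ‖ ^ 2 := pow_le_pow_left₀ (norm_nonneg _) (hc _ _) 2
      rw [e1, e3]
      linarith
    have e0 : psum F (N + 1) ξ = S ξ + (R ξ - Q ξ) := by
      rw [psum_succ]; rfl
    have e1 : ‖S ξ + (R ξ - Q ξ)‖ ^ 2 = ‖S ξ‖ ^ 2 + 2 * (⟪S ξ, R ξ - Q ξ⟫_ℂ).re +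
        ‖R ξ - Q ξ‖ ^ 2 := norm_add_sq (𝕜 := ℂ) (S ξ) (R ξ - Q ξ)
    rw [e0, e1]
    have hD : ‖R ξ - Q ξ‖ ^ 2 ≤ (2 - (1 / 2) ^ N) * ‖R ξ - Q ξ‖ ^ 2 := by
      nlinarith [sq_nonneg ‖R ξ - Q ξ‖]
    have hqd : (2 - (1 / 2) ^ N) * (‖Q ξ‖ ^ 2 + ‖R ξ - Q ξ‖ ^ 2) ≤
        (2 - (1 / 2) ^ N) * ((1 + 2 * η) * ‖ξ‖ ^ 2) :=
      mul_le_mul_of_nonneg_left qd (by linarith)
    -- numerics
    have num : (2 - (1 / 2) ^ N) * (1 + 2 * η) + (4 * c + c ^ 2) + 8 * N * η ≤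
        2 - (1 / 2 : ℝ) ^ (N + 1) := by
      have hN : (N : ℝ) ≤ 2 ^ N := by exact_mod_cast (Nat.lt_two_pow_self).le
      set t : ℝ := (1 / 2) ^ N with ht
      have ht0 : 0 < t := by positivity
      have ht1 : t ≤ 1 := pow_le_one₀ (by norm_num) (by norm_num)
      have hη2 : η = (1 / 64) * t ^ 2 := by rw [hη, ht, ← pow_mul, mul_comm 2 N]
      have hNt : (N : ℝ) * t ≤ 1 := by
        have : (2 : ℝ) ^ N * t = 1 := by rw [ht, ← mul_pow]; norm_num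
        nlinarith
      have hNη : (N : ℝ) * η ≤ (1 / 64) * t := by rw [hη2]; nlinarith
      have hNη0 : 0 ≤ (N : ℝ) * η := by positivity
      have h1 : c ≤ (1 / 32) * t := by rw [hcdef]; linarith
      have h2 : c ^ 2 ≤ (1 / 1024) * t := by nlinarith
      have h3 : η ≤ (1 / 64) * t := by rw [hη2]; nlinarith
      have h4 : (1 / 2 : ℝ) ^ (N + 1) = t / 2 := by rw [pow_succ, ← ht]; ring
      have h5 : 0 ≤ t * η := by positivity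
      rw [h4]
      nlinarith
    have hx : 0 ≤ ‖ξ‖ ^ 2 := sq_nonneg _
    have := mul_le_mul_of_nonneg_right num hx
    nlinarith

end Pool.Agent.U609.FA
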