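import Mathlib
import Pool.Agent.U609.FA.Disc3
import Pool.Agent.U609.FA.Orth
import Pool.Agent.U609.FA.Final

set_option autoImplicit false

/-!
# The radical of `A(G)''` for infinite discrete `G`
-/

namespace Pool.Agent.U609.FA

open MeasureTheory MeasureTheory.Measure Filter H434R3.Arens
open scoped ENNReal ComplexConjugate Topology InnerProductSpace

section general

variable {E : Type*} [NormedAddCommGroup E] [InnerProductSpace ℂ E]

lemma norm_le_one_of_symm (S : E →L[ℂ] E) (hs : ∀ ξ ζ, ⟪ζ, S ξ⟫_ℂ = ⟪S ζ, ξ⟫_ℂ)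
    (hq : ∀ ξ, |(⟪ξ, S ξ⟫_ℂ).re| ≤ ‖ξ‖ ^ 2) : ‖S‖ ≤ 1 := by
  have pol : ∀ ξ ζ, 2 * (⟪ζ, S ξ⟫_ℂ).re ≤ ‖ξ‖ ^ 2 + ‖ζ‖ ^ 2 := by
    intro ξ ζ
    have h1 := (abs_le.1 (hq (ζ + ξ))).2
    have h2 := (abs_le.1 (hq (ζ - ξ))).1
    have e1 : (⟪ζ + ξ, S (ζ + ξ)⟫_ℂ).re - (⟪ζ - ξ, S (ζ - ξ)⟫_ℂ).re = 4 * (⟪ζ, S ξ⟫_ℂ).re := by
      have h3 : (⟪ξ, S ζ⟫_ℂ).re = (⟪ζ, S ξ⟫_ℂ).re := by
        rw [hs, ← inner_conj_symm, Complex.conj_re]
      simp only [map_add, map_sub, inner_add_left, inner_add_right, inner_sub_left,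
        inner_sub_right, Complex.add_re, Complex.sub_re]
      rw [h3]; ring
    have e2 : ‖ζ + ξ‖ ^ 2 + ‖ζ - ξ‖ ^ 2 = 2 * (‖ζ‖ ^ 2 + ‖ξ‖ ^ 2) := by
      have := parallelogram_law_with_norm ℂ ζ ξ
      nlinarith
    linarith
  refine ContinuousLinearMap.opNorm_le_bound _ zero_le_one fun ξ => ?_
  rw [one_mul]
  rcases (norm_nonneg (S ξ)).eq_or_lt with h0 | h0
  · rw [← h0]; exact norm_nonneg _
  · set l : ℝ := ‖ξ‖ / ‖S ξ‖ with hl
    have h1 := pol ξ (((l : ℝ) : ℂ) • S ξ)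
    rw [inner_smul_left, Complex.conj_ofReal, Complex.re_ofReal_mul, norm_smul,
      Complex.norm_real, Real.norm_of_nonneg (by positivity)] at h1
    have h2 : (⟪S ξ, S ξ⟫_ℂ).re = ‖S ξ‖ ^ 2 := inner_self_eq_norm_sq (𝕜 := ℂ) (S ξ)
    rw [h2] at h1
    have h3 : l * ‖S ξ‖ = ‖ξ‖ := div_mul_cancel₀ _ h0.ne'
    have h4 : l * ‖S ξ‖ ^ 2 = ‖ξ‖ * ‖S ξ‖ := by rw [pow_two, ← mul_assoc, h3]
    rw [h3, h4] at h1
    have hξ0 : 0 < ‖ξ‖ := by
      rcases (norm_nonneg ξ).eq_or_lt with h | h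
      · have : ξ = 0 := norm_eq_zero.1 h.symm
        rw [this, map_zero, norm_zero] at h0
        exact absurd h0 (lt_irrefl 0)
      · exact h
    by_contra hlt
    push Not at hlt
    nlinarith

end general

variable {G : Type*} [Group G] [TopologicalSpace G] [IsTopologicalGroup G] [LocallyCompactSpace G]
  [MeasurableSpace G] [BorelSpace G] [DiscreteTopology G]
  {A : Type*} [NonUnitalNormedRing A] [NormedSpace ℂ A]

open scoped Classical in
lemma exists_delta (F : FourierAlg G A) (s : G) :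
    ∃ d : A, ∀ t, F.fn d t = if t = s then 1 else 0 := by
  obtain ⟨a, ha⟩ := F.mem (ee 1) (ee s)
  refine ⟨(cc G : ℂ)⁻¹ • a, fun t => ?_⟩
  rw [F.smul, ha, coeff_eq, inner_ee, inv_mul_cancel_left₀ (cc_ne G), lam_apply, ee_apply]
  have : (t⁻¹ * s = 1) ↔ (t = s) := inv_mul_eq_one
  simp only [this]

lemma mul_fin (F : FourierAlg G A) (a b : A) (S : Finset G) (hS : ∀ s, F.fn a s ≠ 0 → s ∈ S) :
    ‖a * b‖ ≤ ∑ s ∈ S, ‖F.fn a s‖ * ‖F.fn b s‖ * ‖(exists_delta F s).choose‖ := by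
  classical
  have e : a * b = ∑ s ∈ S, (F.fn a s * F.fn b s) • (exists_delta F s).choose := by
    apply F.inj
    funext t
    have h1 := map_sum (F.ev t) (fun s => (F.fn a s * F.fn b s) • (exists_delta F s).choose) S
    simp only [F.ev_apply] at h1
    rw [h1, F.mul]
    simp only [F.smul, (exists_delta F _).choose_spec]
    by_cases ht : F.fn a t = 0
    · rw [ht, zero_mul]
      refine (Finset.sum_eq_zero fun s _ => ?_).symm
      by_cases hts : t = s
      · rw [← hts, ht]; ring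
      · rw [if_neg hts, mul_zero]
    · rw [Finset.sum_eq_single t]
      · rw [if_pos rfl, mul_one]
      · intro s _ hst
        rw [if_neg (Ne.symm hst), mul_zero]
      · intro h; exact absurd (hS t ht) h
  rw [e]
  refine (norm_sum_le _ _).trans (Finset.sum_le_sum fun s _ => ?_)
  rw [norm_smul, norm_mul]

/-- the tolerance -/
noncomputable def dm (n : ℕ) : ℝ := (1 / 32) * (1 / 2) ^ n

lemma dm_pos (n : ℕ) : 0 < dm n := by unfold dm; positivity

lemma dm_anti {m n : ℕ} (h : m ≤ n) : dm n ≤ dm m := by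
  unfold dm
  exact mul_le_mul_of_nonneg_left (pow_le_pow_of_le_one (by norm_num) (by norm_num) h)
    (by norm_num)

lemma dm_le (n : ℕ) : dm n ≤ 1 := (dm_anti (Nat.zero_le n)).trans (by unfold dm; norm_num)

theorem discrete [Infinite G] [IsScalarTower ℂ A A] [SMulCommClass ℂ A A]
    (F : FourierAlg G A) :
    ∃ Φ : Bidual A, Φ ≠ 0 ∧ InRad Φ ∧ ∀ Ψ : Bidual A, Φ * Ψ * Φ = 0 := by
  classical
  set k : ℕ → G := fun n => Infinite.natEmbedding G n with hk
  have hkinf : (Set.range k).Infinite := Set.infinite_range_of_injective (Infinite.natEmbedding G).injective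
  -- operators and functionals
  set P : ℕ → HH G →L[ℂ] HH G := fun j => (NN k) ^ (2 ^ j + 2 ^ j) with hP
  have hgood : ∀ j, ∃ τ : A →L[ℂ] ℂ, F.Rep (P j) τ := fun j => good_pow F k _
  choose τ hτ using hgood
  -- the elements
  have hvec := fun n => exists_vec (G := G) k n (dm_pos n) (dm_le n)
  choose ξ hξ1 hξfin hξ using hvec
  have hmem := fun n => F.mem (ξ n) (ξ n)
  choose u hu using hmem
  have hu1 : ∀ n, ‖u n‖ ≤ 1 := fun n => by
    have := F.norm_le (hu n)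
    rwa [hξ1, one_mul] at this
  have hfin : ∀ n, {s | F.fn (u n) s ≠ 0}.Finite := by
    intro n
    refine (((hξfin n).prod (hξfin n)).image fun p : G × G => p.1 * p.2⁻¹).subset fun s hs => ?_
    by_contra hne
    apply hs
    rw [hu, coeff]
    refine integral_eq_zero_of_ae (Eventually.of_forall fun t => ?_)
    by_contra h2
    apply hne
    have h3 : ξ n (s⁻¹ * t) ≠ 0 := fun h => h2 (by simp [h])
    have h4 : ξ n t ≠ 0 := fun h => h2 (by simp [h])
    exact ⟨(t, s⁻¹ * t), ⟨h4, h3⟩, by simp⟩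
  have hτu : ∀ j n, τ j (u n) = ((‖((NN k) ^ (2 ^ j)) (ξ n)‖ ^ 2 : ℝ) : ℂ) := fun j n => by
    rw [hτ j _ _ _ (hu n), hP, inner_pow_self]
  have hone : ∀ i n, i ≤ n → ‖τ i (u n) - 1‖ ≤ dm n := by
    intro i n hin
    rw [hτu]
    have h1 : ‖((NN k) ^ (2 ^ n)) (ξ n)‖ ^ 2 ≤ ‖((NN k) ^ (2 ^ i)) (ξ n)‖ ^ 2 :=
      pow_le_pow_left₀ (norm_nonneg _) (pow_anti k (ξ n) (Nat.pow_le_pow_right (by norm_num) hin)) 2
    have h2 : ‖((NN k) ^ (2 ^ i)) (ξ n)‖ ^ 2 ≤ 1 := by
      have := pow_zero_norm k (ξ n) (2 ^ i)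
      rw [hξ1] at this
      exact pow_le_one₀ (norm_nonneg _) this
    have h3 := hξ n
    have e : ((‖((NN k) ^ (2 ^ i)) (ξ n)‖ ^ 2 : ℝ) : ℂ) - 1 =
        ((‖((NN k) ^ (2 ^ i)) (ξ n)‖ ^ 2 - 1 : ℝ) : ℂ) := by push_cast; ring
    rw [e, Complex.norm_real, Real.norm_eq_abs, abs_le]
    constructor <;> linarith [dm_pos n]
  have hlim : ∀ a : A, Tendsto (fun j => τ j a) atTop (𝓝 0) := by
    intro a
    obtain ⟨ζ, η, hr⟩ := F.rep a
    have h1 := pow_tendsto k hkinf ζ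
    have h2 : Tendsto (fun j : ℕ => 2 ^ j) atTop atTop :=
      tendsto_pow_atTop_atTop_of_one_lt (by norm_num : (1 : ℕ) < 2)
    have h3 := h1.comp h2
    have h4 : Tendsto (fun j => ⟪η, ((NN k) ^ (2 * 2 ^ j)) ζ⟫_ℂ) atTop (𝓝 ⟪η, (0 : HH G)⟫_ℂ) :=
      ((innerSL ℂ η).continuous.tendsto _).comp h3
    rw [inner_zero_right] at h4
    refine h4.congr fun j => ?_
    rw [hτ j a ζ η hr, hP, two_mul]
  -- the pointwise cluster function
  set φ : G → ℂ := fun s => ul fun n => F.fn (u n) s with hφ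
  have hφlim : ∀ s, Tendsto (fun n => F.fn (u n) s) (hyperfilter ℕ : Filter ℕ) (𝓝 (φ s)) :=
    fun s => ul_tendsto (C := 1) fun n => (F.norm_fn_le _ _).trans (hu1 n)
  -- the subsequence
  have hnext : ∀ S : Finset (ℕ × ℕ), (∀ p ∈ S, p.1 ≤ p.2) → ∃ q : ℕ × ℕ, q.1 ≤ q.2 ∧
      ∀ p ∈ S, p.1 < q.1 ∧ p.2 < q.2 ∧ ‖τ q.2 (u p.2)‖ ≤ dm q.1 ∧
        ∀ s, F.fn (u p.2) s ≠ 0 → ‖F.fn (u q.2) s - φ s‖ ≤ dm q.1 := by
    intro S _
    set i : ℕ := S.sup (fun p => p.1) + 1 with hi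
    have hi' : ∀ p ∈ S, p.1 < i := fun p hp =>
      Nat.lt_succ_of_le (Finset.le_sup (f := fun p : ℕ × ℕ => p.1) hp)
    have ev : ∀ᶠ n in (hyperfilter ℕ : Filter ℕ), i ≤ n ∧ ∀ p ∈ S, p.2 < n ∧
        ‖τ n (u p.2)‖ ≤ dm i ∧ ∀ s, F.fn (u p.2) s ≠ 0 → ‖F.fn (u n) s - φ s‖ ≤ dm i := by
      have h00 : ∀ᶠ n in (hyperfilter ℕ : Filter ℕ), i ≤ n := hyper_le (eventually_ge_atTop i)
      refine h00.and ?_
      rw [Filter.eventually_all_finset]
      intro p _
      have h01 : ∀ᶠ n in (hyperfilter ℕ : Filter ℕ), p.2 < n := hyper_le (eventually_gt_atTop p.2)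
      refine h01.and (Eventually.and ?_ ?_)
      · have h1 := (hlim (u p.2)).norm
        rw [norm_zero] at h1
        exact hyper_le ((h1.eventually (gt_mem_nhds (dm_pos i))).mono fun n hn => hn.le)
      · have h2 : ∀ᶠ n in (hyperfilter ℕ : Filter ℕ), ∀ s ∈ (hfin p.2).toFinset,
            ‖F.fn (u n) s - φ s‖ ≤ dm i := by
          rw [Filter.eventually_all_finset]
          intro s _
          have h3 := (hφlim s).eventually (Metric.closedBall_mem_nhds (φ s) (dm_pos i))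
          exact h3.mono fun n hn => by rwa [dist_eq_norm] at hn
        refine h2.mono fun n hn s hs => hn s ?_
        rw [Set.Finite.mem_toFinset]; exact hs
    obtain ⟨n, hn1, hn2⟩ := ev.exists
    exact ⟨(i, n), hn1, fun p hp => ⟨hi' p hp, (hn2 p hp).1, (hn2 p hp).2.1, (hn2 p hp).2.2⟩⟩
  obtain ⟨f, hf1, hf2⟩ := exists_seq_of_forall_finset_exists (fun p : ℕ × ℕ => p.1 ≤ p.2)
    (fun p q => p.1 < q.1 ∧ p.2 < q.2 ∧ ‖τ q.2 (u p.2)‖ ≤ dm q.1 ∧
        ∀ s, F.fn (u p.2) s ≠ 0 → ‖F.fn (u q.2) s - φ s‖ ≤ dm q.1) hnext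
  have hmono : ∀ j, j ≤ (f j).1 := by
    intro j
    induction j with
    | zero => exact Nat.zero_le _
    | succ j ih => exact Nat.succ_le_of_lt (lt_of_le_of_lt ih (hf2 j (j + 1) (Nat.lt_succ_self j)).1)
  have hn : ∀ i j, i ≤ j → (f i).2 ≤ (f j).2 := by
    intro i j hij
    rcases hij.eq_or_lt with rfl | h
    · exact le_rfl
    · exact (hf2 i j h).2.1.le
  set σ : ℕ → A →L[ℂ] ℂ := fun j => τ (f j).2 with hσ
  set v : ℕ → A := fun j => u (f j).2 with hv
  set T : ℕ → HH G →L[ℂ] HH G := fun j => P (f j).2 with hT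
  -- norm bound of the partial sums
  have hTsymm : ∀ i ξ ζ, ⟪ζ, T i ξ⟫_ℂ = ⟪T i ζ, ξ⟫_ℂ := fun i ξ ζ => pow_symm k _ ξ ζ
  have hTn : ∀ N, ‖psum T N‖ ≤ 1 := by
    intro N
    refine norm_le_one_of_symm _ (psum_symm T hTsymm N) fun ζ => ?_
    set b : ℕ → ℝ := fun j => ‖((NN k) ^ (2 ^ (f j).2)) ζ‖ ^ 2 with hb
    have hbanti : ∀ i j, i ≤ j → b j ≤ b i := fun i j hij =>
      pow_le_pow_left₀ (norm_nonneg _)
        (pow_anti k ζ (Nat.pow_le_pow_right (by norm_num) (hn i j hij))) 2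
    have hbT : ∀ j, (⟪ζ, T j ζ⟫_ℂ).re = b j := fun j => by
      rw [hT, hP, inner_pow_self, Complex.ofReal_re]
    have hq : ∀ N, (⟪ζ, psum T N ζ⟫_ℂ).re ≤ 0 ∧ b (2 * N) - b 0 ≤ (⟪ζ, psum T N ζ⟫_ℂ).re := by
      intro N
      induction N with
      | zero => simp [psum]
      | succ N ih =>
        have e : (⟪ζ, psum T (N + 1) ζ⟫_ℂ).re = (⟪ζ, psum T N ζ⟫_ℂ).re +
            (b (2 * N + 1) - b (2 * N)) := by
          rw [psum_succ, _root_.add_apply, _root_.sub_apply, inner_add_right, inner_sub_right,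
            Complex.add_re, Complex.sub_re, hbT, hbT]
        rw [e]
        have h1 := hbanti (2 * N) (2 * N + 1) (by omega)
        have h2 := hbanti (2 * N + 1) (2 * (N + 1)) (by omega)
        constructor
        · linarith [ih.1]
        · linarith [ih.2]
    have h1 := hq N
    have h2 : 0 ≤ b (2 * N) := sq_nonneg _
    have h3 : b 0 ≤ ‖ζ‖ ^ 2 := pow_le_pow_left₀ (norm_nonneg _) (pow_zero_norm k ζ _) 2
    rw [abs_le]
    constructor
    · linarith [h1.2]
    · have := sq_nonneg ‖ζ‖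
      linarith [h1.1]
  have hrep : ∀ N, F.Rep (psum T N) (psum σ N : A →L[ℂ] ℂ) := by
    intro N
    induction N with
    | zero => simpa [psum] using F.rep_zero
    | succ N ih =>
      rw [psum_succ, psum_succ]
      exact ih.add ((hτ _).sub (hτ _))
  refine final_step F.mul_comm' σ v (fun j => hu1 _) (C := 1)
    (fun N => (hrep N).norm_le.trans (hTn N)) 1 0 (by simp) ?_ ?_ ?_
  · intro i j hij
    refine (hone _ _ (hn i j hij)).trans (dm_anti ?_)
    exact (hmono j).trans (hf1 j)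
  · intro i j hji
    rw [sub_zero]
    exact (hf2 j i hji).2.2.1.trans (dm_anti (hmono i))
  · intro i
    -- the finite support
    set S : Finset G := (hfin (f (2 * i)).2).toFinset ∪ (hfin (f (2 * i + 1)).2).toFinset with hS
    have hSsupp : ∀ s, F.fn (v (2 * i) - v (2 * i + 1)) s ≠ 0 → s ∈ S := by
      intro s hs
      rw [F.fn_sub] at hs
      rw [hS, Finset.mem_union, Set.Finite.mem_toFinset, Set.Finite.mem_toFinset]
      by_contra hne
      rw [not_or] at hne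
      apply hs
      have h1 : F.fn (v (2 * i)) s = 0 := by
        by_contra h; exact hne.1 h
      have h2 : F.fn (v (2 * i + 1)) s = 0 := by
        by_contra h; exact hne.2 h
      rw [h1, h2, sub_zero]
    have hpt : ∀ s ∈ S, Tendsto (fun m => ‖F.fn (v (2 * m) - v (2 * m + 1)) s‖) atTop (𝓝 0) := by
      intro s hs
      have hdm : Tendsto (fun m : ℕ => 2 * dm m) atTop (𝓝 0) := by
        have h1 : Tendsto (fun m : ℕ => ((1 : ℝ) / 2) ^ m) atTop (𝓝 0) :=
          tendsto_pow_atTop_nhds_zero_of_lt_one (by norm_num) (by norm_num)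
        have := h1.const_mul (2 * (1 / 32))
        rw [mul_zero] at this
        refine this.congr fun m => ?_
        unfold dm; ring
      refine squeeze_zero' (Eventually.of_forall fun m => norm_nonneg _) ?_ hdm
      filter_upwards [eventually_gt_atTop i] with m hm
      rw [F.fn_sub]
      have key : ∀ j, 2 * m ≤ j → ‖F.fn (v j) s - φ s‖ ≤ dm m := by
        intro j hj
        rw [hS, Finset.mem_union, Set.Finite.mem_toFinset, Set.Finite.mem_toFinset] at hs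
        rcases hs with hs | hs
        · exact ((hf2 (2 * i) j (by omega)).2.2.2 s hs).trans
            (dm_anti ((show m ≤ j by omega).trans (hmono j)))
        · exact ((hf2 (2 * i + 1) j (by omega)).2.2.2 s hs).trans
            (dm_anti ((show m ≤ j by omega).trans (hmono j)))
      have e : F.fn (v (2 * m)) s - F.fn (v (2 * m + 1)) s =
          (F.fn (v (2 * m)) s - φ s) - (F.fn (v (2 * m + 1)) s - φ s) := by ring
      rw [e]
      refine (norm_sub_le _ _).trans ?_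
      linarith [key (2 * m) le_rfl, key (2 * m + 1) (by omega)]
    have hsum : Tendsto (fun m => ∑ s ∈ S, ‖F.fn (v (2 * i) - v (2 * i + 1)) s‖ *
        ‖F.fn (v (2 * m) - v (2 * m + 1)) s‖ * ‖(exists_delta F s).choose‖) atTop (𝓝 0) := by
      have : Tendsto (fun m => ∑ s ∈ S, ‖F.fn (v (2 * i) - v (2 * i + 1)) s‖ *
        ‖F.fn (v (2 * m) - v (2 * m + 1)) s‖ * ‖(exists_delta F s).choose‖) atTop
          (𝓝 (∑ s ∈ S, ‖F.fn (v (2 * i) - v (2 * i + 1)) s‖ * 0 *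
            ‖(exists_delta F s).choose‖)) :=
        tendsto_finsetSum _ fun s hs => ((hpt s hs).const_mul _).mul_const _
      simpa using this
    exact squeeze_zero (fun m => norm_nonneg _) (fun m => mul_fin F _ _ S hSsupp) hsum

end Pool.Agent.U609.FA
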