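import Mathlib
import Pool.Agent.U609.FA.Oper

set_option autoImplicit false

/-!
# Averages of left translations over compact neighbourhoods
-/

namespace Pool.Agent.U609.FA

open MeasureTheory MeasureTheory.Measure Filter
open scoped ENNReal ComplexConjugate Topology InnerProductSpace Pointwise

variable {G : Type*} [Group G] [TopologicalSpace G] [IsTopologicalGroup G] [LocallyCompactSpace G]
  [MeasurableSpace G] [BorelSpace G] [T2Space G]

/-- the mean of `h` over `V` -/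
noncomputable def mean {E : Type*} [NormedAddCommGroup E] [NormedSpace ℝ E] (V : Set G)
    (h : G → E) : E :=
  ((haar : Measure G).real V)⁻¹ • ∫ y in V, h y ∂(haar : Measure G)

section mean

variable {E : Type*} [NormedAddCommGroup E] [NormedSpace ℝ E] {V : Set G}

lemma mean_norm_le (hV : IsCompact V) {h : G → E} {C : ℝ} (hC : 0 ≤ C)
    (hh : ∀ y ∈ V, ‖h y‖ ≤ C) : ‖mean V h‖ ≤ C := by
  have h1 : ‖∫ y in V, h y ∂(haar : Measure G)‖ ≤ C * (haar : Measure G).real V :=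
    norm_setIntegral_le_of_norm_le_const hV.measure_lt_top (fun y hy => hh y hy)
  rw [mean, norm_smul, norm_inv, Real.norm_of_nonneg measureReal_nonneg]
  rcases (measureReal_nonneg (μ := (haar : Measure G)) (s := V)).eq_or_lt with h0 | h0
  · rw [← h0]; simpa using hC
  · rw [inv_mul_le_iff₀ h0, mul_comm]; exact h1

lemma real_pos (hV : IsCompact V) (h1 : V ∈ 𝓝 (1 : G)) : 0 < (haar : Measure G).real V := by
  rw [measureReal_def, ENNReal.toReal_pos_iff]
  exact ⟨measure_pos_of_mem_nhds _ h1, hV.measure_lt_top⟩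

lemma mean_const [CompleteSpace E] (hV : IsCompact V) (h1 : V ∈ 𝓝 (1 : G)) (c : E) :
    mean V (fun _ => c) = c := by
  rw [mean, setIntegral_const, smul_smul, inv_mul_cancel₀ (real_pos hV h1).ne', one_smul]

lemma cont_int (hV : IsCompact V) {h : G → E} (hh : Continuous h) :
    IntegrableOn h V (haar : Measure G) := hh.continuousOn.integrableOn_compact hV

lemma mean_sub (hV : IsCompact V) {h h' : G → E} (hh : Continuous h) (hh' : Continuous h') :
    mean V (fun y => h y - h' y) = mean V h - mean V h' := by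
  rw [mean, mean, mean, integral_sub (cont_int hV hh) (cont_int hV hh'), smul_sub]

lemma mean_add (hV : IsCompact V) {h h' : G → E} (hh : Continuous h) (hh' : Continuous h') :
    mean V (fun y => h y + h' y) = mean V h + mean V h' := by
  rw [mean, mean, mean, integral_add (cont_int hV hh) (cont_int hV hh'), smul_add]

omit [T2Space G] in
lemma mean_mul_left (c : ℂ) (h : G → ℂ) : mean V (fun y => c * h y) = c * mean V h := by
  rw [mean, mean, integral_const_mul, Complex.real_smul, Complex.real_smul]; ring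

lemma mean_near [CompleteSpace E] (hV : IsCompact V) (h1 : V ∈ 𝓝 (1 : G)) {h : G → E}
    (hh : Continuous h) {c : E} {ε : ℝ} (hε : 0 ≤ ε) (hc : ∀ y ∈ V, ‖h y - c‖ ≤ ε) :
    ‖mean V h - c‖ ≤ ε := by
  have : mean V h - c = mean V (fun y => h y - c) := by
    rw [mean_sub hV hh continuous_const, mean_const hV h1]
  rw [this]
  exact mean_norm_le hV hε hc

lemma mean_clm {E' : Type*} [NormedAddCommGroup E'] [NormedSpace ℝ E'] [CompleteSpace E]
    [CompleteSpace E'] (hV : IsCompact V)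
    {h : G → E} (hh : Continuous h) (L : E →L[ℝ] E') : L (mean V h) = mean V (fun y => L (h y)) := by
  rw [mean, mean, map_smul, ← L.integral_comp_comm (cont_int hV hh)]

end mean

/-- the operator `ξ ↦ mean of λ(φ y) ξ over y ∈ V` -/
noncomputable def avg (V : Set G) (hV : IsCompact V) (φ : G → G) (hφ : Continuous φ) :
    HH G →L[ℂ] HH G :=
  LinearMap.mkContinuous
    { toFun := fun ξ => mean V (fun y => lam (φ y) ξ)
      map_add' := fun ξ η => by
        simp only [map_add]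
        exact mean_add hV ((continuous_lam ξ).comp hφ) ((continuous_lam η).comp hφ)
      map_smul' := fun c ξ => by
        simp only [map_smul, RingHom.id_apply, mean]
        rw [integral_smul, smul_comm] } 1
    (fun ξ => by
      simp only [LinearMap.coe_mk, AddHom.coe_mk, one_mul]
      exact mean_norm_le hV (norm_nonneg _) fun y _ => (norm_lam _ _).le)

lemma avg_apply (V : Set G) (hV : IsCompact V) (φ : G → G) (hφ : Continuous φ) (ξ : HH G) :
    avg V hV φ hφ ξ = mean V (fun y => lam (φ y) ξ) := rfl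

lemma norm_avg_apply_le (V : Set G) (hV : IsCompact V) (φ : G → G) (hφ : Continuous φ) (ξ : HH G) :
    ‖avg V hV φ hφ ξ‖ ≤ ‖ξ‖ := mean_norm_le hV (norm_nonneg _) fun y _ => (norm_lam _ _).le

lemma inner_avg (V : Set G) (hV : IsCompact V) (φ : G → G) (hφ : Continuous φ) (ξ η : HH G) :
    ⟪η, avg V hV φ hφ ξ⟫_ℂ = mean V (fun y => ⟪η, lam (φ y) ξ⟫_ℂ) :=
  mean_clm hV ((continuous_lam ξ).comp hφ) ((innerSL ℂ η).restrictScalars ℝ)

/-- `X_V = |V|⁻¹ ∫_V λ(y) dy` -/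
noncomputable def XX (V : Set G) (hV : IsCompact V) : HH G →L[ℂ] HH G :=
  avg V hV (fun y => y) continuous_id

/-- `X_V* = |V|⁻¹ ∫_V λ(y⁻¹) dy` -/
noncomputable def YY (V : Set G) (hV : IsCompact V) : HH G →L[ℂ] HH G :=
  avg V hV (fun y => y⁻¹) continuous_inv

lemma norm_XX_le (V : Set G) (hV : IsCompact V) (ξ : HH G) : ‖XX V hV ξ‖ ≤ ‖ξ‖ :=
  norm_avg_apply_le V hV (fun y => y) continuous_id ξ

lemma norm_YY_le (V : Set G) (hV : IsCompact V) (ξ : HH G) : ‖YY V hV ξ‖ ≤ ‖ξ‖ :=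
  norm_avg_apply_le V hV (fun y => y⁻¹) continuous_inv ξ

/-- `F_V = X_V X_V*` -/
noncomputable def FF (V : Set G) (hV : IsCompact V) : HH G →L[ℂ] HH G :=
  (XX V hV).comp (YY V hV)

lemma FF_apply (V : Set G) (hV : IsCompact V) (ξ : HH G) : FF V hV ξ = XX V hV (YY V hV ξ) := rfl

lemma adj (V : Set G) (hV : IsCompact V) (ξ η : HH G) :
    ⟪η, XX V hV ξ⟫_ℂ = ⟪YY V hV η, ξ⟫_ℂ := by
  rw [XX, inner_avg]
  have h1 : ⟪YY V hV η, ξ⟫_ℂ = conj ⟪ξ, YY V hV η⟫_ℂ := (inner_conj_symm _ _).symm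
  rw [h1, YY, inner_avg, mean, mean, Complex.real_smul, Complex.real_smul, map_mul,
    Complex.conj_ofReal, ← integral_conj]
  congr 1
  refine integral_congr_ae (Eventually.of_forall fun y => ?_)
  show ⟪η, lam y ξ⟫_ℂ = conj ⟪ξ, lam y⁻¹ η⟫_ℂ
  rw [inner_conj_symm, inner_lam]

lemma inner_FF (V : Set G) (hV : IsCompact V) (ξ η : HH G) :
    ⟪η, FF V hV ξ⟫_ℂ = ⟪YY V hV η, YY V hV ξ⟫_ℂ := by rw [FF_apply, adj]

lemma FF_symm (V : Set G) (hV : IsCompact V) (ξ η : HH G) :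
    ⟪η, FF V hV ξ⟫_ℂ = ⟪FF V hV η, ξ⟫_ℂ := by
  rw [inner_FF, ← inner_conj_symm (FF V hV η), inner_FF, inner_conj_symm]

lemma norm_FF_sq_le (V : Set G) (hV : IsCompact V) (ξ : HH G) :
    ‖FF V hV ξ‖ ^ 2 ≤ (⟪ξ, FF V hV ξ⟫_ℂ).re := by
  rw [inner_FF]
  have h := inner_self_eq_norm_sq (𝕜 := ℂ) (YY V hV ξ)
  have h' : (⟪YY V hV ξ, YY V hV ξ⟫_ℂ).re = ‖YY V hV ξ‖ ^ 2 := h
  rw [h']
  exact pow_le_pow_left₀ (norm_nonneg _) (norm_XX_le V hV _) 2

lemma norm_FF_le (V : Set G) (hV : IsCompact V) (ξ : HH G) : ‖FF V hV ξ‖ ≤ ‖ξ‖ :=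
  (norm_XX_le V hV _).trans (norm_YY_le V hV _)

/-- `λ(z) X_V ≈ X_V` for `z` close to `1` -/
lemma lam_XX (V : Set G) (hV : IsCompact V) (h1 : V ∈ 𝓝 (1 : G)) {ε : ℝ} (hε : 0 < ε) :
    ∃ O ∈ 𝓝 (1 : G), ∀ z ∈ O, ∀ ξ : HH G, ‖lam z (XX V hV ξ) - XX V hV ξ‖ ≤ ε * ‖ξ‖ := by
  set m := (haar : Measure G).real V with hm
  have hm0 : 0 < m := real_pos hV h1
  have ht := tendsto_measure_smul_sdiff_isCompact_isClosed (μ := (haar : Measure G)) hV hV.isClosed
  have hpos : (0 : ℝ≥0∞) < ENNReal.ofReal (ε * m / 2) := by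
    rw [ENNReal.ofReal_pos]; positivity
  have hO := (ht.eventually (gt_mem_nhds hpos))
  obtain ⟨O, hO1, hO2⟩ := hO.exists_mem
  refine ⟨O ∩ O⁻¹, inter_mem hO1 (inv_mem_nhds_one G hO1), fun z hz ξ => ?_⟩
  have hz1 : (haar : Measure G) (z • V \ V) < ENNReal.ofReal (ε * m / 2) := hO2 z hz.1
  have hz2 : (haar : Measure G) (V \ z • V) < ENNReal.ofReal (ε * m / 2) := by
    have e : V \ z • V = z • (z⁻¹ • V \ V) := by
      rw [Set.smul_set_sdiff, smul_smul, mul_inv_cancel, one_smul]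
    rw [e, measure_smul]
    exact hO2 z⁻¹ (Set.mem_inv.1 hz.2)
  have hVm : MeasurableSet V := hV.measurableSet
  have hzVm : MeasurableSet (z • V) := hVm.const_smul z
  have hzVc : IsCompact (z • V) := hV.smul z
  -- `λ(z) ∫_V λ(y) ξ = ∫_{zV} λ(y) ξ`
  have e1 : lam z (∫ y in V, lam y ξ ∂(haar : Measure G)) = ∫ y in z • V, lam y ξ ∂haar := by
    rw [← ContinuousLinearMap.integral_comp_comm (lam z) (cont_int hV (continuous_lam ξ))]
    have := (measurePreserving_mul_left (haar : Measure G) z).setIntegral_image_emb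
      (Homeomorph.mulLeft z).measurableEmbedding (fun y => lam y ξ) V
    rw [show z • V = (fun y => z * y) '' V from rfl, this]
    simp only [lam_mul]
  have e2 : lam z (XX V hV ξ) - XX V hV ξ = m⁻¹ • ((∫ y in z • V, lam y ξ ∂haar) -
      ∫ y in V, lam y ξ ∂haar) := by
    rw [XX, avg_apply, mean, smul_sub, ← e1, ← hm]
    congr 1
    have := (lam z).map_smul_of_tower (m⁻¹ : ℝ) (∫ y in V, lam y ξ ∂(haar : Measure G))
    exact this
  have i1 := cont_int hzVc (continuous_lam ξ)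
  have i2 := cont_int hV (continuous_lam ξ)
  have s1 := integral_inter_add_sdiff (μ := (haar : Measure G)) (f := fun y => lam y ξ)
    (s := z • V) (t := V) hVm i1
  have s2 := integral_inter_add_sdiff (μ := (haar : Measure G)) (f := fun y => lam y ξ)
    (s := V) (t := z • V) hzVm i2
  have e3 : (∫ y in z • V, lam y ξ ∂haar) - ∫ y in V, lam y ξ ∂haar =
      (∫ y in z • V \ V, lam y ξ ∂haar) - ∫ y in V \ z • V, lam y ξ ∂haar := by
    rw [← s1, ← s2, Set.inter_comm V (z • V)]; abel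
  have n1 : ‖∫ y in z • V \ V, lam y ξ ∂(haar : Measure G)‖ ≤ ‖ξ‖ * (ε * m / 2) := by
    have h2 := norm_setIntegral_le_of_norm_le_const (μ := (haar : Measure G))
      (s := z • V \ V) (f := fun y => lam y ξ) (C := ‖ξ‖) (hz1.trans ENNReal.ofReal_lt_top)
      (fun y _ => (norm_lam y ξ).le)
    refine h2.trans (mul_le_mul_of_nonneg_left ?_ (norm_nonneg _))
    exact ENNReal.toReal_le_of_le_ofReal (by positivity) hz1.le
  have n2 : ‖∫ y in V \ z • V, lam y ξ ∂(haar : Measure G)‖ ≤ ‖ξ‖ * (ε * m / 2) := by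
    have h2 := norm_setIntegral_le_of_norm_le_const (μ := (haar : Measure G))
      (s := V \ z • V) (f := fun y => lam y ξ) (C := ‖ξ‖) (hz2.trans ENNReal.ofReal_lt_top)
      (fun y _ => (norm_lam y ξ).le)
    refine h2.trans (mul_le_mul_of_nonneg_left ?_ (norm_nonneg _))
    exact ENNReal.toReal_le_of_le_ofReal (by positivity) hz2.le
  rw [e2, e3, norm_smul, norm_inv, Real.norm_of_nonneg hm0.le, inv_mul_le_iff₀ hm0]
  calc _ ≤ _ := norm_sub_le _ _
    _ ≤ ‖ξ‖ * (ε * m / 2) + ‖ξ‖ * (ε * m / 2) := add_le_add n1 n2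
    _ = m * (ε * ‖ξ‖) := by ring

/-- `F_{V'} F_V ≈ F_V` for small `V'` -/
lemma FF_FF (V : Set G) (hV : IsCompact V) (h1 : V ∈ 𝓝 (1 : G)) {ε : ℝ} (hε : 0 < ε) :
    ∃ O ∈ 𝓝 (1 : G), ∀ (V' : Set G) (hV' : IsCompact V'), V' ∈ 𝓝 (1 : G) → V' ⊆ O →
      ∀ ξ : HH G, ‖FF V' hV' (FF V hV ξ) - FF V hV ξ‖ ≤ ε * ‖ξ‖ := by
  obtain ⟨O, hO, hO2⟩ := lam_XX V hV h1 (half_pos hε)
  refine ⟨O ∩ O⁻¹, inter_mem hO (inv_mem_nhds_one G hO), fun V' hV' h1' hsub ξ => ?_⟩
  have hY : ‖YY V hV ξ‖ ≤ ‖ξ‖ := norm_YY_le V hV ξ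
  have a1 : ‖XX V' hV' (FF V hV ξ) - FF V hV ξ‖ ≤ ε / 2 * ‖ξ‖ := by
    rw [XX, avg_apply]
    refine mean_near hV' h1' (continuous_lam _) (by positivity) fun y hy => ?_
    exact (hO2 y (hsub hy).1 _).trans (mul_le_mul_of_nonneg_left hY (by positivity))
  have a2 : ‖YY V' hV' (FF V hV ξ) - FF V hV ξ‖ ≤ ε / 2 * ‖ξ‖ := by
    rw [YY, avg_apply]
    refine mean_near hV' h1' ((continuous_lam _).comp continuous_inv) (by positivity)
      fun y hy => ?_
    exact (hO2 y⁻¹ (Set.mem_inv.1 (hsub hy).2) _).trans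
      (mul_le_mul_of_nonneg_left hY (by positivity))
  have e : FF V' hV' (FF V hV ξ) - FF V hV ξ =
      XX V' hV' (YY V' hV' (FF V hV ξ) - FF V hV ξ) + (XX V' hV' (FF V hV ξ) - FF V hV ξ) := by
    rw [FF_apply V', map_sub]; abel
  rw [e]
  calc _ ≤ _ := norm_add_le _ _
    _ ≤ ε / 2 * ‖ξ‖ + ε / 2 * ‖ξ‖ := add_le_add ((norm_XX_le V' hV' _).trans a2) a1
    _ = ε * ‖ξ‖ := by ring

end Pool.Agent.U609.FA
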