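import Mathlib
import Pool.Agent.U609.FA.Avg

set_option autoImplicit false

/-!
# The functionals `τ_V` and elements of the Fourier algebra with small support
-/

namespace Pool.Agent.U609.FA

open MeasureTheory MeasureTheory.Measure Filter
open scoped ENNReal ComplexConjugate Topology InnerProductSpace Pointwise

variable {G : Type*} [Group G] [TopologicalSpace G] [IsTopologicalGroup G] [LocallyCompactSpace G]
  [MeasurableSpace G] [BorelSpace G] [T2Space G]
  {A : Type*} [NonUnitalNormedRing A] [NormedSpace ℂ A]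

namespace FourierAlg

/-- `|V|⁻² ∫_V ∫_V a(x y⁻¹) dy dx` -/
noncomputable def tfun (F : FourierAlg G A) (V : Set G) (a : A) : ℂ :=
  mean V (fun x => mean V (fun y => F.fn a (x * y⁻¹)))

lemma inner_mean (F : FourierAlg G A) (V : Set G) (hV : IsCompact V) {a : A} {ξ η : HH G}
    (hr : ∀ s, F.fn a s = coeff ξ η s) (x : G) :
    mean V (fun y => F.fn a (x * y⁻¹)) = ⟪η, lam x (YY V hV ξ)⟫_ℂ := by
  rw [inner_lam, YY, inner_avg]
  congr 1
  funext y
  rw [hr, coeff_eq, lam_mul, inner_lam]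

lemma continuous_mean (F : FourierAlg G A) (V : Set G) (hV : IsCompact V) (a : A) :
    Continuous (fun x => mean V (fun y => F.fn a (x * y⁻¹))) := by
  obtain ⟨ξ, η, hr⟩ := F.rep a
  have : (fun x => mean V (fun y => F.fn a (x * y⁻¹))) = fun x => ⟪η, lam x (YY V hV ξ)⟫_ℂ := by
    funext x; exact inner_mean F V hV hr x
  rw [this]
  exact continuous_const.inner (continuous_lam _)

lemma rep_tfun (F : FourierAlg G A) (V : Set G) (hV : IsCompact V) :
    F.Rep (FF V hV) (F.tfun V) := by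
  intro a ξ η hr
  rw [FF_apply, XX, inner_avg, tfun]
  congr 1
  funext x
  exact inner_mean F V hV hr x

lemma cont_shift (F : FourierAlg G A) (a : A) (x : G) : Continuous fun y => F.fn a (x * y⁻¹) :=
  (F.continuous_fn a).comp (continuous_const.mul continuous_inv)

/-- `τ_V` as an element of the dual space of the Fourier algebra -/
noncomputable def tau (F : FourierAlg G A) (V : Set G) (hV : IsCompact V) : A →L[ℂ] ℂ :=
  LinearMap.mkContinuous
    { toFun := F.tfun V
      map_add' := fun a b => by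
        rw [tfun, tfun, tfun, ← mean_add hV (continuous_mean F V hV a) (continuous_mean F V hV b)]
        congr 1
        funext x
        rw [← mean_add hV (F.cont_shift a x) (F.cont_shift b x)]
        congr 1
        funext y
        exact F.add a b _
      map_smul' := fun c a => by
        simp only [tfun, F.smul, RingHom.id_apply, smul_eq_mul, mean_mul_left] } _
    ((rep_tfun F V hV).bound)

lemma tau_apply (F : FourierAlg G A) (V : Set G) (hV : IsCompact V) (a : A) :
    F.tau V hV a = mean V (fun x => mean V (fun y => F.fn a (x * y⁻¹))) := rfl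

lemma rep_tau (F : FourierAlg G A) (V : Set G) (hV : IsCompact V) :
    F.Rep (FF V hV) (F.tau V hV) := rep_tfun F V hV

lemma tau_near (F : FourierAlg G A) (a : A) {ε : ℝ} (hε : 0 < ε) :
    ∃ O ∈ 𝓝 (1 : G), ∀ (V : Set G) (hV : IsCompact V), V ∈ 𝓝 (1 : G) → V ⊆ O →
      ‖F.tau V hV a - F.fn a 1‖ ≤ ε := by
  have hc : Continuous fun p : G × G => F.fn a (p.1 * p.2⁻¹) :=
    (F.continuous_fn a).comp (continuous_fst.mul continuous_snd.inv)
  have ht : Tendsto (fun p : G × G => F.fn a (p.1 * p.2⁻¹)) (𝓝 (1, 1)) (𝓝 (F.fn a 1)) := by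
    have := hc.tendsto (1, 1)
    simpa using this
  have hb : ∀ᶠ p in 𝓝 ((1 : G), (1 : G)), F.fn a (p.1 * p.2⁻¹) ∈ Metric.closedBall (F.fn a 1) ε :=
    ht (Metric.closedBall_mem_nhds _ hε)
  obtain ⟨O1, hO1, O2, hO2, hsub⟩ := mem_nhds_prod_iff.1 hb
  refine ⟨O1 ∩ O2, inter_mem hO1 hO2, fun V hV h1 hVO => ?_⟩
  rw [tau_apply]
  refine mean_near hV h1 (continuous_mean F V hV a) hε.le fun x hx => ?_
  refine mean_near hV h1 (F.cont_shift a x) hε.le fun y hy => ?_
  have := hsub (Set.mk_mem_prod (hVO hx).1 (hVO hy).2)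
  simpa [dist_eq_norm] using this

lemma small_measure [(𝓝[≠] (1 : G)).NeBot] (V : Set G) (hV : IsCompact V) {ε : ℝ} (hε : 0 < ε) :
    ∃ W ∈ 𝓝 (1 : G), ∀ x ∈ V, (haar : Measure G) {y | x * y⁻¹ ∈ W} ≤ ENNReal.ofReal ε := by
  refine hV.induction_on (p := fun V => ∃ W ∈ 𝓝 (1 : G), ∀ x ∈ V,
    (haar : Measure G) {y | x * y⁻¹ ∈ W} ≤ ENNReal.ofReal ε) ?_ ?_ ?_ ?_
  · exact ⟨Set.univ, univ_mem, fun x hx => absurd hx (Set.notMem_empty x)⟩
  · rintro s t hst ⟨W, hW, h⟩
    exact ⟨W, hW, fun x hx => h x (hst hx)⟩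
  · rintro s t ⟨W, hW, h⟩ ⟨W', hW', h'⟩
    refine ⟨W ∩ W', inter_mem hW hW', fun x hx => ?_⟩
    rcases hx with hx | hx
    · exact (measure_mono fun y hy => hy.1).trans (h x hx)
    · exact (measure_mono fun y hy => hy.2).trans (h' x hx)
  · intro x0 _
    have h0 : (haar : Measure G) {x0} < ENNReal.ofReal ε := by
      rw [measure_singleton, ENNReal.ofReal_pos]; exact hε
    obtain ⟨O, hO1, hO2, hO3⟩ := Set.exists_isOpen_lt_of_lt {x0} _ h0
    have hx0 : x0 ∈ O := hO1 rfl
    have hc : Continuous fun p : G × G => p.2⁻¹ * p.1 := continuous_snd.inv.mul continuous_fst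
    have ht : (fun p : G × G => p.2⁻¹ * p.1) ⁻¹' O ∈ 𝓝 (x0, (1 : G)) := by
      apply hc.continuousAt
      simpa using hO2.mem_nhds hx0
    obtain ⟨N, hN, W, hW, hsub⟩ := mem_nhds_prod_iff.1 ht
    refine ⟨N, mem_nhdsWithin_of_mem_nhds hN, W, hW, fun x hx => ?_⟩
    refine (measure_mono fun y hy => ?_).trans hO3.le
    have := hsub (Set.mk_mem_prod hx hy)
    simpa using this

lemma tau_small [(𝓝[≠] (1 : G)).NeBot] (F : FourierAlg G A) (V : Set G) (hV : IsCompact V)
    (h1 : V ∈ 𝓝 (1 : G)) {ε : ℝ} (hε : 0 < ε) :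
    ∃ W ∈ 𝓝 (1 : G), ∀ a : A, (∀ s, ‖F.fn a s‖ ≤ 1) → (∀ s, s ∉ W → F.fn a s = 0) →
      ‖F.tau V hV a‖ ≤ ε := by
  set m := (haar : Measure G).real V with hm
  have hm0 : 0 < m := real_pos hV h1
  obtain ⟨W, hW, h⟩ := small_measure V hV (ε := ε * m) (by positivity)
  refine ⟨W, hW, fun a ha1 ha2 => ?_⟩
  rw [tau_apply]
  refine mean_norm_le hV hε.le fun x hx => ?_
  rw [mean, norm_smul, norm_inv, Real.norm_of_nonneg measureReal_nonneg, ← hm,
    inv_mul_le_iff₀ hm0]
  set E : Set G := {y | F.fn a (x * y⁻¹) ≠ 0} with hE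
  have hEo : IsOpen E := isOpen_ne.preimage (F.cont_shift a x)
  have hEsub : E ⊆ {y | x * y⁻¹ ∈ W} := fun y hy => by
    by_contra hc
    exact hy (ha2 _ hc)
  have hEm : (haar : Measure G) (V ∩ E) ≤ ENNReal.ofReal (ε * m) :=
    (measure_mono (Set.inter_subset_right.trans hEsub)).trans (h x hx)
  have e1 : ∫ y in V, F.fn a (x * y⁻¹) ∂(haar : Measure G) =
      ∫ y in V ∩ E, F.fn a (x * y⁻¹) ∂(haar : Measure G) := by
    refine (setIntegral_eq_of_subset_of_forall_sdiff_eq_zero hV.measurableSet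
      Set.inter_subset_left ?_)
    rintro y ⟨hy1, hy2⟩
    by_contra hc
    exact hy2 ⟨hy1, hc⟩
  rw [e1]
  refine (norm_setIntegral_le_of_norm_le_const (C := 1) (hEm.trans_lt ENNReal.ofReal_lt_top)
    (fun y _ => ha1 _)).trans ?_
  rw [one_mul, mul_comm m ε]
  exact ENNReal.toReal_le_of_le_ofReal (by positivity) hEm

/-- a normalised element of `A(G)` with small support -/
lemma exists_bump (F : FourierAlg G A) {W : Set G} (hW : W ∈ 𝓝 (1 : G)) :
    ∃ x : A, ‖x‖ ≤ 1 ∧ F.fn x 1 = 1 ∧ ∀ s, s ∉ W → F.fn x s = 0 := by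
  have hc : Continuous fun p : G × G => p.1 * p.2⁻¹ := continuous_fst.mul continuous_snd.inv
  have ht : (fun p : G × G => p.1 * p.2⁻¹) ⁻¹' W ∈ 𝓝 ((1 : G), (1 : G)) := by
    apply hc.continuousAt
    simpa using hW
  obtain ⟨O1, hO1, O2, hO2, hsub⟩ := mem_nhds_prod_iff.1 ht
  obtain ⟨V, hV1, hVsub, hV⟩ := local_compact_nhds (inter_mem hO1 hO2)
  set m := (haar : Measure G).real V with hm
  have hm0 : 0 < m := real_pos hV hV1
  set ζ : HH G := indicatorConstLp 2 hV.measurableSet hV.measure_lt_top.ne (1 : ℂ) with hζ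
  have hζn : ‖ζ‖ = m ^ ((1 : ℝ) / 2) := by
    rw [hζ, norm_indicatorConstLp (by norm_num) (by norm_num)]
    simp [hm]
  set ξ : HH G := ((m ^ (-(1 : ℝ) / 2) : ℝ) : ℂ) • ζ with hξ
  have hξn : ‖ξ‖ = 1 := by
    rw [hξ, norm_smul, hζn, Complex.norm_real, Real.norm_of_nonneg (by positivity),
      ← Real.rpow_add hm0]
    norm_num
  obtain ⟨x, hx⟩ := F.mem ξ ξ
  refine ⟨x, ?_, ?_, ?_⟩
  · have := F.norm_le hx
    rwa [hξn, one_mul] at this
  · rw [hx, coeff_eq, lam_one, inner_self_eq_norm_sq_to_K, hξn]; simp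
  · intro s hs
    rw [hx, coeff]
    have h1 : (ξ : G → ℂ) =ᵐ[haar] fun t => ((m ^ (-(1 : ℝ) / 2) : ℝ) : ℂ) *
        V.indicator (fun _ => (1 : ℂ)) t := by
      rw [hξ]
      filter_upwards [Lp.coeFn_smul (((m ^ (-(1 : ℝ) / 2) : ℝ) : ℂ)) ζ,
        indicatorConstLp_coeFn (p := 2) (hs := hV.measurableSet) (hμs := hV.measure_lt_top.ne)
          (c := (1 : ℂ)) (μ := (haar : Measure G))] with t h2 h3
      rw [h2, Pi.smul_apply, smul_eq_mul, hζ, h3]
    have h2 := (measurePreserving_mul_left (haar : Measure G) s⁻¹).quasiMeasurePreserving.ae_eq_comp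
      h1
    refine integral_eq_zero_of_ae ?_
    filter_upwards [h1, h2] with t ht1 ht2
    simp only [Function.comp] at ht2
    rw [ht1, ht2]
    by_cases htV : t ∈ V
    · by_cases htV' : s⁻¹ * t ∈ V
      · exfalso
        apply hs
        have := hsub (Set.mk_mem_prod (hVsub htV).1 (hVsub htV').2)
        simpa using this
      · simp [Set.indicator_of_notMem htV']
    · simp [Set.indicator_of_notMem htV]

/-- `v * (v * (⋯ * u))` -/
noncomputable def it (v u : A) (i : ℕ) : A := (fun z => v * z)^[i] u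

lemma it_zero (v u : A) : it v u 0 = u := rfl
lemma it_succ (v u : A) (i : ℕ) : it v u (i + 1) = v * it v u i := by
  rw [it, it, Function.iterate_succ_apply']

/-- asymptotically invariant normalised elements -/
lemma exists_inv (F : FourierAlg G A) {W : Set G} {x : A} (hx : ‖x‖ ≤ 1) (hx1 : F.fn x 1 = 1)
    (hxW : ∀ s, s ∉ W → F.fn x s = 0) {ε : ℝ} (hε : 0 < ε) (vs : Finset A)
    (hvs : ∀ v ∈ vs, ‖v‖ ≤ 1 ∧ F.fn v 1 = 1) :
    ∃ u : A, ‖u‖ ≤ 1 ∧ F.fn u 1 = 1 ∧ (∀ s, s ∉ W → F.fn u s = 0) ∧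
      ∀ v ∈ vs, ‖v * u - u‖ ≤ ε := by
  classical
  induction vs using Finset.induction_on with
  | empty => exact ⟨x, hx, hx1, hxW, fun v hv => absurd hv (Finset.notMem_empty v)⟩
  | insert v vs _ ih =>
    obtain ⟨u, hu, hu1, huW, hinv⟩ := ih fun w hw => hvs w (Finset.mem_insert_of_mem hw)
    obtain ⟨hv, hv1⟩ := hvs v (Finset.mem_insert_self v vs)
    have i1 : ∀ i, ‖it v u i‖ ≤ 1 := by
      intro i
      induction i with
      | zero => exact hu
      | succ i ih =>
        rw [it_succ]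
        exact (norm_mul_le _ _).trans (mul_le_one₀ hv (norm_nonneg _) ih)
    have i2 : ∀ i, F.fn (it v u i) 1 = 1 := by
      intro i
      induction i with
      | zero => exact hu1
      | succ i ih => rw [it_succ, F.mul, hv1, ih, one_mul]
    have i3 : ∀ i s, s ∉ W → F.fn (it v u i) s = 0 := by
      intro i s hs
      induction i with
      | zero => exact huW s hs
      | succ i ih => rw [it_succ, F.mul, ih, mul_zero]
    have i4 : ∀ w ∈ vs, ∀ i, ‖w * it v u i - it v u i‖ ≤ ε := by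
      intro w hw i
      induction i with
      | zero => exact hinv w hw
      | succ i ih =>
        rw [it_succ]
        have e : w * (v * it v u i) - v * it v u i = v * (w * it v u i - it v u i) := by
          rw [mul_sub, ← mul_assoc, F.mul_comm' w v, mul_assoc]
        rw [e]
        exact (norm_mul_le _ _).trans ((mul_le_mul hv ih (norm_nonneg _) zero_le_one).trans
          (one_mul _).le)
    obtain ⟨n, hn⟩ := exists_nat_gt (2 / ε)
    have hn0 : (0 : ℝ) < n := lt_of_le_of_lt (by positivity) hn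
    have hnc : (n : ℂ) ≠ 0 := by exact_mod_cast hn0.ne'
    set y : A := ((n : ℂ)⁻¹) • ∑ i ∈ Finset.range n, it v u i with hy
    have hfs : ∀ s, F.fn y s = (n : ℂ)⁻¹ * ∑ i ∈ Finset.range n, F.fn (it v u i) s := by
      intro s
      have := congrArg (fun z : ℂ => (n : ℂ)⁻¹ * z)
        (map_sum (F.ev s) (fun i => it v u i) (Finset.range n))
      simp only [F.ev_apply] at this
      rw [hy, F.smul]; exact this
    have nrm : ∀ (z : ℕ → A) (C : ℝ), 0 ≤ C → (∀ i, ‖z i‖ ≤ C) →
        ‖((n : ℂ)⁻¹) • ∑ i ∈ Finset.range n, z i‖ ≤ C := by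
      intro z C hC hz
      rw [norm_smul, norm_inv, Complex.norm_natCast, inv_mul_le_iff₀ hn0]
      refine (norm_sum_le _ _).trans ((Finset.sum_le_sum fun i _ => hz i).trans ?_)
      simp
    refine ⟨y, nrm _ 1 zero_le_one i1, ?_, ?_, ?_⟩
    · rw [hfs]
      simp only [i2, Finset.sum_const, Finset.card_range, nsmul_eq_mul, mul_one]
      exact inv_mul_cancel₀ hnc
    · intro s hs
      rw [hfs]
      simp only [i3 _ s hs, Finset.sum_const_zero, mul_zero]
    · intro w hw
      rcases Finset.mem_insert.1 hw with rfl | hw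
      · have e : w * y - y = ((n : ℂ)⁻¹) • (it w u n - u) := by
          have h1 : w * y = ((n : ℂ)⁻¹) • ∑ i ∈ Finset.range n, it w u (i + 1) := by
            apply F.inj
            funext s
            rw [F.mul, hfs, F.smul]
            have := map_sum (F.ev s) (fun i => it w u (i + 1)) (Finset.range n)
            simp only [F.ev_apply] at this
            rw [this, mul_left_comm, Finset.mul_sum]
            simp only [it_succ, F.mul]
          rw [h1, hy, ← smul_sub, ← Finset.sum_sub_distrib, Finset.sum_range_sub]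
          rfl
        rw [e, norm_smul, norm_inv, Complex.norm_natCast, inv_mul_le_iff₀ hn0]
        refine (norm_sub_le _ _).trans ?_
        have h2 : 2 < n * ε := by rwa [div_lt_iff₀ hε] at hn
        linarith [i1 n, hu]
      · have e : w * y - y = ((n : ℂ)⁻¹) • ∑ i ∈ Finset.range n, (w * it v u i - it v u i) := by
          apply F.inj
          funext s
          rw [F.fn_sub, F.mul, hfs, F.smul]
          have := map_sum (F.ev s) (fun i => w * it v u i - it v u i) (Finset.range n)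
          simp only [F.ev_apply] at this
          rw [this]
          simp only [F.fn_sub, F.mul]
          rw [Finset.sum_sub_distrib, ← Finset.mul_sum]
          ring
        rw [e]
        exact nrm _ ε hε.le (i4 w hw)

end FourierAlg

end Pool.Agent.U609.FA
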