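import Mathlib
import Pool.Agent.U609.FA.Func
import Pool.Agent.U609.FA.Orth
import Pool.Agent.U609.FA.Final

set_option autoImplicit false

/-!
# The radical of `A(G)''` for non-discrete `G`
-/

namespace Pool.Agent.U609.FA

open MeasureTheory MeasureTheory.Measure Filter H434R3.Arens
open scoped ENNReal ComplexConjugate Topology InnerProductSpace Pointwise

variable {G : Type*} [Group G] [TopologicalSpace G] [IsTopologicalGroup G] [LocallyCompactSpace G]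
  [MeasurableSpace G] [BorelSpace G] [T2Space G]
  {A : Type*} [NonUnitalNormedRing A] [NormedSpace ℂ A]

/-- compact neighbourhoods of `1` -/
abbrev CN (G : Type*) [Group G] [TopologicalSpace G] : Type _ :=
  {V : Set G // IsCompact V ∧ V ∈ 𝓝 (1 : G)}

/-- the tolerance -/
noncomputable def dl (n : ℕ) : ℝ := (1 / 64) * (1 / 2) ^ n

lemma dl_pos (n : ℕ) : 0 < dl n := by unfold dl; positivity

lemma dl_anti {m n : ℕ} (h : m ≤ n) : dl n ≤ dl m := by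
  unfold dl
  exact mul_le_mul_of_nonneg_left (pow_le_pow_of_le_one (by norm_num) (by norm_num) h)
    (by norm_num)

/-- the relation between earlier and later data -/
def Rl (F : FourierAlg G A) (p q : ℕ × CN G × A) : Prop :=
  p.1 < q.1 ∧ ‖F.tau q.2.1.1 q.2.1.2.1 p.2.2 - 1‖ ≤ dl q.1 ∧
    ‖F.tau p.2.1.1 p.2.1.2.1 q.2.2‖ ≤ dl q.1 ∧ ‖p.2.2 * q.2.2 - q.2.2‖ ≤ dl q.1 ∧
    ∀ ξ : HH G, ‖FF q.2.1.1 q.2.1.2.1 (FF p.2.1.1 p.2.1.2.1 ξ) - FF p.2.1.1 p.2.1.2.1 ξ‖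
      ≤ dl q.1 * ‖ξ‖

/-- the property of each datum -/
def Pl (F : FourierAlg G A) (p : ℕ × CN G × A) : Prop :=
  ‖p.2.2‖ ≤ 1 ∧ F.fn p.2.2 1 = 1 ∧ ‖F.tau p.2.1.1 p.2.1.2.1 p.2.2‖ ≤ dl p.1

lemma exists_next [(𝓝[≠] (1 : G)).NeBot] (F : FourierAlg G A) (s : Finset (ℕ × CN G × A))
    (hs : ∀ p ∈ s, Pl F p) : ∃ q, Pl F q ∧ ∀ p ∈ s, Rl F p q := by
  classical
  set n : ℕ := s.sup (fun p => p.1) + 1 with hn
  have hn' : ∀ p ∈ s, p.1 < n := fun p hp =>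
    Nat.lt_succ_of_le (Finset.le_sup (f := fun p : ℕ × CN G × A => p.1) hp)
  have h1 : ∀ p : ℕ × CN G × A, ∃ O ∈ 𝓝 (1 : G), ∀ (V : Set G) (hV : IsCompact V),
      V ∈ 𝓝 (1 : G) → V ⊆ O → ‖F.tau V hV p.2.2 - F.fn p.2.2 1‖ ≤ dl n := fun p =>
    F.tau_near p.2.2 (dl_pos n)
  choose O1 hO1 hO1' using h1
  have h2 : ∀ p : ℕ × CN G × A, ∃ O ∈ 𝓝 (1 : G), ∀ (V : Set G) (hV : IsCompact V),
      V ∈ 𝓝 (1 : G) → V ⊆ O → ∀ ξ : HH G, ‖FF V hV (FF p.2.1.1 p.2.1.2.1 ξ) -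
        FF p.2.1.1 p.2.1.2.1 ξ‖ ≤ dl n * ‖ξ‖ := fun p =>
    FF_FF p.2.1.1 p.2.1.2.1 p.2.1.2.2 (dl_pos n)
  choose O2 hO2 hO2' using h2
  have hO : (⋂ p ∈ s, (O1 p ∩ O2 p)) ∈ 𝓝 (1 : G) :=
    (Filter.biInter_finset_mem s).2 fun p _ => inter_mem (hO1 p) (hO2 p)
  obtain ⟨V, hV1, hVsub, hV⟩ := local_compact_nhds hO
  have hVO : ∀ p ∈ s, V ⊆ O1 p ∩ O2 p := fun p hp =>
    hVsub.trans (Set.iInter₂_subset p hp)
  obtain ⟨W0, hW0, hW0'⟩ := F.tau_small V hV hV1 (dl_pos n)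
  have h3 : ∀ p : ℕ × CN G × A, ∃ W ∈ 𝓝 (1 : G), ∀ a : A, (∀ s, ‖F.fn a s‖ ≤ 1) →
      (∀ s, s ∉ W → F.fn a s = 0) → ‖F.tau p.2.1.1 p.2.1.2.1 a‖ ≤ dl n := fun p =>
    F.tau_small p.2.1.1 p.2.1.2.1 p.2.1.2.2 (dl_pos n)
  choose W hW hW' using h3
  have hWW : W0 ∩ (⋂ p ∈ s, W p) ∈ 𝓝 (1 : G) :=
    inter_mem hW0 ((Filter.biInter_finset_mem s).2 fun p _ => hW p)
  obtain ⟨x, hx, hx1, hxW⟩ := F.exists_bump hWW
  obtain ⟨u, hu, hu1, huW, hinv⟩ := F.exists_inv hx hx1 hxW (dl_pos n)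
    (s.image fun p => p.2.2) (by
      intro v hv
      obtain ⟨p, hp, rfl⟩ := Finset.mem_image.1 hv
      exact ⟨(hs p hp).1, (hs p hp).2.1⟩)
  have hu' : ∀ s, ‖F.fn u s‖ ≤ 1 := fun s => (F.norm_fn_le u s).trans hu
  refine ⟨(n, ⟨V, hV, hV1⟩, u), ⟨hu, hu1, ?_⟩, fun p hp => ⟨hn' p hp, ?_, ?_, ?_, ?_⟩⟩
  · exact hW0' u hu' fun s hs' => huW s fun h => hs' h.1
  · have := hO1' p V hV hV1 ((hVO p hp).trans Set.inter_subset_left)
    rw [(hs p hp).2.1] at this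
    exact this
  · refine hW' p u hu' fun t ht => huW t fun h => ht ?_
    exact Set.mem_iInter₂.1 h.2 p hp
  · exact hinv p.2.2 (Finset.mem_image_of_mem _ hp)
  · exact hO2' p V hV hV1 ((hVO p hp).trans Set.inter_subset_right)

theorem nondiscrete [(𝓝[≠] (1 : G)).NeBot] [IsScalarTower ℂ A A] [SMulCommClass ℂ A A]
    (F : FourierAlg G A) :
    ∃ Φ : Bidual A, Φ ≠ 0 ∧ InRad Φ ∧ ∀ Ψ : Bidual A, Φ * Ψ * Φ = 0 := by
  obtain ⟨f, hP, hR⟩ := exists_seq_of_forall_finset_exists (Pl F) (Rl F) (exists_next F)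
  have hmono : ∀ k, k ≤ (f k).1 := by
    intro k
    induction k with
    | zero => exact Nat.zero_le _
    | succ k ih => exact Nat.succ_le_of_lt (lt_of_le_of_lt ih (hR k (k + 1) (Nat.lt_succ_self k)).1)
  have hdl : ∀ k, dl (f k).1 ≤ dl k := fun k => dl_anti (hmono k)
  have hle : ∀ k, dl k ≤ (1 / 32) * (1 / 2) ^ k := fun k => by
    unfold dl
    exact mul_le_mul_of_nonneg_right (by norm_num) (by positivity)
  set τ : ℕ → A →L[ℂ] ℂ := fun k => F.tau (f k).2.1.1 (f k).2.1.2.1 with hτ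
  set u : ℕ → A := fun k => (f k).2.2 with hu
  set T : ℕ → HH G →L[ℂ] HH G := fun k => FF (f k).2.1.1 (f k).2.1.2.1 with hT
  have hbd : ∀ N ξ, ‖psum T N ξ‖ ^ 2 ≤ (2 - (1 / 2) ^ N) * ‖ξ‖ ^ 2 := fun N =>
    psum_bound T (fun i ξ ζ => FF_symm _ _ _ _) (fun i ξ => norm_FF_sq_le _ _ _)
      (fun i ξ => norm_FF_le _ _ _) (fun i k hik ξ =>
        ((hR i k hik).2.2.2.2 ξ).trans (mul_le_mul_of_nonneg_right (hdl k) (norm_nonneg _))) N
  have hTn : ∀ N, ‖psum T N‖ ≤ 2 := by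
    intro N
    refine ContinuousLinearMap.opNorm_le_bound _ (by norm_num) fun ξ => ?_
    have h1 : ‖psum T N ξ‖ ^ 2 ≤ (2 * ‖ξ‖) ^ 2 := by
      have h2 := hbd N ξ
      have h3 : (0 : ℝ) ≤ (1 / 2) ^ N := by positivity
      nlinarith [sq_nonneg ‖ξ‖, mul_nonneg h3 (sq_nonneg ‖ξ‖)]
    exact le_of_sq_le_sq h1 (by positivity)
  have hrep : ∀ N, F.Rep (psum T N) (psum τ N : A →L[ℂ] ℂ) := by
    intro N
    induction N with
    | zero => simpa [psum] using F.rep_zero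
    | succ N ih =>
      rw [psum_succ, psum_succ]
      exact ih.add ((F.rep_tau _ _).sub (F.rep_tau _ _))
  have hinv : ∀ i k, i < k → ‖u i * u k - u k‖ ≤ dl k := fun i k hik =>
    (hR i k hik).2.2.2.1.trans (hdl k)
  refine final_step F.mul_comm' τ u (fun k => (hP k).1) (C := 2)
    (fun N => (hrep N).norm_le.trans (hTn N)) 0 1 (by simp) ?_ ?_ ?_
  · intro i k hik
    rw [sub_zero]
    rcases hik.eq_or_lt with rfl | hik
    · exact (hP i).2.2.trans ((hdl i).trans (hle i))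
    · exact (hR i k hik).2.2.1.trans ((hdl k).trans (hle k))
  · intro i k hki
    exact (hR k i hki).2.1.trans ((hdl i).trans (hle i))
  · intro i
    have hlim : Tendsto (fun m : ℕ => 4 * dl m) atTop (𝓝 0) := by
      have h1 : Tendsto (fun m : ℕ => ((1 : ℝ) / 2) ^ m) atTop (𝓝 0) :=
        tendsto_pow_atTop_nhds_zero_of_lt_one (by norm_num) (by norm_num)
      have := h1.const_mul (4 * (1 / 64))
      rw [mul_zero] at this
      refine this.congr fun m => ?_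
      unfold dl; ring
    refine squeeze_zero' (Eventually.of_forall fun m => norm_nonneg _) ?_ hlim
    filter_upwards [eventually_gt_atTop i] with m hm
    have e : (u (2 * i) - u (2 * i + 1)) * (u (2 * m) - u (2 * m + 1)) =
        ((u (2 * i) * u (2 * m) - u (2 * m)) - (u (2 * i + 1) * u (2 * m) - u (2 * m))) -
        ((u (2 * i) * u (2 * m + 1) - u (2 * m + 1)) -
          (u (2 * i + 1) * u (2 * m + 1) - u (2 * m + 1))) := by
      rw [sub_mul, mul_sub, mul_sub]; abel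
    rw [e]
    have b1 := hinv (2 * i) (2 * m) (by omega)
    have b2 := hinv (2 * i + 1) (2 * m) (by omega)
    have b3 := hinv (2 * i) (2 * m + 1) (by omega)
    have b4 := hinv (2 * i + 1) (2 * m + 1) (by omega)
    have c1 : dl (2 * m) ≤ dl m := dl_anti (by omega)
    have c2 : dl (2 * m + 1) ≤ dl m := dl_anti (by omega)
    refine (norm_sub_le _ _).trans ?_
    refine (add_le_add (norm_sub_le _ _) (norm_sub_le _ _)).trans ?_
    linarith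

end Pool.Agent.U609.FA
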